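import Pool.Agent.Lib.MP_7eb9fd_co.Defs

set_option autoImplicit false

namespace Pool.Agent.MP_7eb9fd_co

open Finset Classical

/-- The indicator of a proposition. -/
noncomputable def ind (p : Prop) : ℕ := if p then 1 else 0

lemma ind_pos {p : Prop} (h : p) : ind p = 1 := by simp [ind, h]
lemma ind_neg {p : Prop} (h : ¬ p) : ind p = 0 := by simp [ind, h]
lemma ind_congr {p q : Prop} (h : p ↔ q) : ind p = ind q := by simp [ind, h]

/-- Graphical, on any finite vertex set. -/
def Gr (s : Multiset ℕ) : Prop := ∃ (V : Type) (_ : Fintype V) (G : SimpleGraph V), degs G = s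

/-- Some realization is disconnected. -/
def Dis (s : Multiset ℕ) : Prop :=
  ∃ (V : Type) (_ : Fintype V) (G : SimpleGraph V), degs G = s ∧ ¬ G.Connected

section basics

variable {V W : Type}

lemma card_degs [Fintype V] (G : SimpleGraph V) : (degs G).card = Fintype.card V := by
  simp [degs]

lemma dg_equiv (e : V ≃ W) (G : SimpleGraph V) (H : SimpleGraph W)
    (h : ∀ a b, H.Adj (e a) (e b) ↔ G.Adj a b) (a : V) : dg H (e a) = dg G a := by
  unfold dg
  have : H.neighborSet (e a) = e '' (G.neighborSet a) := by
    ext w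
    constructor
    · intro hw
      refine ⟨e.symm w, ?_, by simp⟩
      have : H.Adj (e a) (e (e.symm w)) := by simpa using hw
      exact (h _ _).1 this
    · rintro ⟨b, hb, rfl⟩
      exact (h _ _).2 hb
  rw [this, Set.ncard_image_of_injective _ e.injective]

lemma degs_equiv [Fintype V] [Fintype W] (e : V ≃ W) (G : SimpleGraph V) (H : SimpleGraph W)
    (h : ∀ a b, H.Adj (e a) (e b) ↔ G.Adj a b) : degs H = degs G := by
  unfold degs
  rw [← Finset.map_univ_equiv e, Finset.map_val, Multiset.map_map]
  apply Multiset.map_congr rfl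
  intro a _
  exact dg_equiv e G H h a

lemma exists_fin (V : Type) [Fintype V] (G : SimpleGraph V) (j : ℕ) (hj : Fintype.card V = j) :
    ∃ H : SimpleGraph (Fin j), degs H = degs G ∧ (H.Connected ↔ G.Connected) := by
  let e : V ≃ Fin j := Fintype.equivFinOfCardEq hj
  refine ⟨G.comap e.symm, ?_, ?_⟩
  · apply degs_equiv e
    intro a b
    simp
  · have i : (G.comap e.symm) ≃g G :=
      { toEquiv := e.symm
        map_rel_iff' := by intro a b; simp }
    exact i.connected_iff

/-- Adding an edge. -/
def AddE (G G' : SimpleGraph V) (u v : V) : Prop :=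
  u ≠ v ∧ ¬ G.Adj u v ∧ ∀ a b, G'.Adj a b ↔ (G.Adj a b ∨ (a = u ∧ b = v) ∨ (a = v ∧ b = u))

lemma exists_add (G : SimpleGraph V) {u v : V} (h : u ≠ v) (hn : ¬ G.Adj u v) :
    ∃ G', AddE G G' u v := by
  refine ⟨⟨fun a b => G.Adj a b ∨ (a = u ∧ b = v) ∨ (a = v ∧ b = u), ?_, ?_⟩, h, hn, ?_⟩
  · refine ⟨fun a b hab => ?_⟩
    rcases hab with hab | ⟨h1, h2⟩ | ⟨h1, h2⟩
    · exact Or.inl hab.symm
    · exact Or.inr (Or.inr ⟨h2, h1⟩)
    · exact Or.inr (Or.inl ⟨h2, h1⟩)
  · refine ⟨fun a ha => ?_⟩
    rcases ha with ha | ⟨h1, h2⟩ | ⟨h1, h2⟩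
    · exact G.loopless.irrefl a ha
    · exact h (h1.symm.trans h2)
    · exact h (h2.symm.trans h1)
  · intro a b
    rfl

lemma exists_del (G : SimpleGraph V) {u v : V} (h : G.Adj u v) :
    ∃ G', AddE G' G u v := by
  have hne : u ≠ v := h.ne
  refine ⟨⟨fun a b => G.Adj a b ∧ ¬ (a = u ∧ b = v) ∧ ¬ (a = v ∧ b = u), ?_, ?_⟩, hne, ?_, ?_⟩
  · refine ⟨fun a b hab => ?_⟩
    exact ⟨hab.1.symm, fun h' => hab.2.2 ⟨h'.2, h'.1⟩, fun h' => hab.2.1 ⟨h'.2, h'.1⟩⟩
  · exact ⟨fun a ha => G.loopless.irrefl a ha.1⟩
  · intro h'
    exact h'.2.1 ⟨rfl, rfl⟩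
  · intro a b
    constructor
    · intro hab
      by_cases h1 : a = u ∧ b = v
      · exact Or.inr (Or.inl h1)
      by_cases h2 : a = v ∧ b = u
      · exact Or.inr (Or.inr h2)
      exact Or.inl ⟨hab, h1, h2⟩
    · rintro (hab | ⟨rfl, rfl⟩ | ⟨rfl, rfl⟩)
      · exact hab.1
      · exact h
      · exact h.symm

lemma AddE.dg [Finite V] {G G' : SimpleGraph V} {u v : V} (h : AddE G G' u v) (w : V) :
    dg G' w = dg G w + ind (w = u) + ind (w = v) := by
  obtain ⟨hne, hn, hadj⟩ := h
  unfold MP_7eb9fd_co.dg
  by_cases h1 : w = u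
  · subst h1
    have : G'.neighborSet w = insert v (G.neighborSet w) := by
      ext b
      simp only [SimpleGraph.mem_neighborSet, hadj, Set.mem_insert_iff, true_and]
      constructor
      · rintro (h | h | ⟨h, h'⟩)
        · exact Or.inr h
        · exact Or.inl h
        · exact absurd h hne
      · rintro (h | h)
        · exact Or.inr (Or.inl h)
        · exact Or.inl h
    rw [this, Set.ncard_insert_of_notMem (by simpa using hn) (Set.toFinite _)]
    simp [hne, ind]
  by_cases h2 : w = v
  · subst h2
    have : G'.neighborSet w = insert u (G.neighborSet w) := by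
      ext b
      simp only [SimpleGraph.mem_neighborSet, hadj, Set.mem_insert_iff, true_and]
      constructor
      · rintro (h | ⟨h, h'⟩ | h)
        · exact Or.inr h
        · exact absurd h.symm hne
        · exact Or.inl h
      · rintro (h | h)
        · exact Or.inr (Or.inr h)
        · exact Or.inl h
    rw [this, Set.ncard_insert_of_notMem (by simpa using fun h => hn (G.adj_symm h)) (Set.toFinite _)]
    simp [hne.symm, ind]
  · have : G'.neighborSet w = G.neighborSet w := by
      ext b
      simp only [SimpleGraph.mem_neighborSet, hadj]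
      simp [h1, h2]
    rw [this]
    simp [h1, h2, ind]

/-- A new vertex joined to the set N. -/
def ext (G : SimpleGraph V) (N : Set V) : SimpleGraph (Option V) where
  Adj a b := match a, b with
    | some a, some b => G.Adj a b
    | some a, none => a ∈ N
    | none, some b => b ∈ N
    | none, none => False
  symm := by
    refine ⟨?_⟩
    rintro (_ | a) (_ | b) h
    · exact h
    · exact h
    · exact h
    · exact G.adj_symm h
  loopless := by
    refine ⟨?_⟩
    rintro (_ | a) h
    · exact h
    · exact G.loopless.irrefl a h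

@[simp] lemma ext_some_some (G : SimpleGraph V) (N : Set V) (a b : V) :
    (ext G N).Adj (some a) (some b) ↔ G.Adj a b := Iff.rfl
@[simp] lemma ext_some_none (G : SimpleGraph V) (N : Set V) (a : V) :
    (ext G N).Adj (some a) none ↔ a ∈ N := Iff.rfl
@[simp] lemma ext_none_some (G : SimpleGraph V) (N : Set V) (a : V) :
    (ext G N).Adj none (some a) ↔ a ∈ N := Iff.rfl
@[simp] lemma ext_none_none (G : SimpleGraph V) (N : Set V) :
    (ext G N).Adj none none ↔ False := Iff.rfl

lemma dg_ext_some [Finite V] (G : SimpleGraph V) (N : Set V) (a : V) :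
    dg (ext G N) (some a) = dg G a + ind (a ∈ N) := by
  unfold dg
  by_cases h : a ∈ N
  · have : (ext G N).neighborSet (some a) = insert none (some '' (G.neighborSet a)) := by
      ext b
      rcases b with _ | b
      · simp [h]
      · simp
    rw [this, Set.ncard_insert_of_notMem (by simp) (Set.toFinite _),
      Set.ncard_image_of_injective _ (Option.some_injective V)]
    simp [h, ind]
  · have : (ext G N).neighborSet (some a) = (some '' (G.neighborSet a)) := by
      ext b
      rcases b with _ | b
      · simp [h]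
      · simp
    rw [this, Set.ncard_image_of_injective _ (Option.some_injective V)]
    simp [h, ind]

lemma dg_ext_none [Finite V] (G : SimpleGraph V) (N : Set V) :
    dg (ext G N) none = N.ncard := by
  unfold dg
  have : (ext G N).neighborSet none = (some '' N) := by
    ext b
    rcases b with _ | b
    · simp
    · simp
  rw [this, Set.ncard_image_of_injective _ (Option.some_injective V)]

lemma degs_ext [Fintype V] (G : SimpleGraph V) (N : Set V) :
    degs (ext G N) = N.ncard ::ₘ
      (Finset.univ : Finset V).val.map (fun a => dg G a + ind (a ∈ N)) := by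
  unfold degs
  have h1 : (Finset.univ : Finset (Option V)).val =
      none ::ₘ (Finset.univ : Finset V).val.map some := by
    rw [univ_option]
    rfl
  rw [h1, Multiset.map_cons, Multiset.map_map, dg_ext_none]
  congr 1
  apply Multiset.map_congr rfl
  intro a _
  exact dg_ext_some G N a

/-- Changing a function on a duplicate-free list. -/
lemma map_change [Fintype V] (f g : V → ℕ) (L : List V) (hL : L.Nodup)
    (h : ∀ v, v ∉ L → f v = g v) :
    (Finset.univ : Finset V).val.map f + ((L.map g : List ℕ) : Multiset ℕ) =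
      (Finset.univ : Finset V).val.map g + ((L.map f : List ℕ) : Multiset ℕ) := by
  have h1 : (L : Multiset V) ≤ (Finset.univ : Finset V).val := by
    rw [Multiset.le_iff_subset (by simpa using hL)]
    intro x _
    simp
  obtain ⟨r, hr⟩ := Multiset.le_iff_exists_add.1 h1
  have hnd : ((L : Multiset V) + r).Nodup := by
    rw [← hr]
    exact Finset.univ.nodup
  have hdis : ∀ v ∈ r, v ∉ L := by
    intro v hv hvL
    have := (Multiset.nodup_add.1 hnd).2.2
    exact Multiset.disjoint_left.1 this (by simpa using hvL) hv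
  have hrfg : r.map f = r.map g := Multiset.map_congr rfl (fun v hv => h v (hdis v hv))
  rw [hr, Multiset.map_add, Multiset.map_add, hrfg, Multiset.map_coe, Multiset.map_coe]
  abel

/-- Choosing vertices with prescribed values. -/
lemma pick (f : V → ℕ) (l : List ℕ) : ∀ (r : Multiset ℕ) (s : Multiset V) (_ : s.Nodup)
    (_ : s.map f = (l : Multiset ℕ) + r), ∃ L : List V, L.Nodup ∧ (∀ x ∈ L, x ∈ s) ∧ L.map f = l := by
  induction l with
  | nil => intro r s _ _; exact ⟨[], by simp⟩
  | cons a l ih =>
    intro r s hs h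
    have ha : a ∈ s.map f := by rw [h]; simp
    obtain ⟨x, hx, hfx⟩ := Multiset.mem_map.1 ha
    obtain ⟨t, rfl⟩ := Multiset.exists_cons_of_mem hx
    have hx' : x ∉ t := (Multiset.nodup_cons.1 hs).1
    have ht : t.Nodup := (Multiset.nodup_cons.1 hs).2
    have h2 : t.map f = (l : Multiset ℕ) + r := by
      rw [Multiset.map_cons, hfx, ← Multiset.cons_coe, Multiset.cons_add] at h
      exact (Multiset.cons_inj_right a).1 h
    obtain ⟨L, hL1, hL2, hL3⟩ := ih r t ht h2
    refine ⟨x :: L, ?_, ?_, ?_⟩
    · rw [List.nodup_cons]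
      exact ⟨fun h => hx' (hL2 x h), hL1⟩
    · intro y hy
      rcases List.mem_cons.1 hy with rfl | hy
      · exact Multiset.mem_cons_self _ _
      · exact Multiset.mem_cons_of_mem (hL2 y hy)
    · simp [hfx, hL3]

lemma not_conn_of_closed (G : SimpleGraph V) (S : Set V) {x y : V} (hx : x ∈ S) (hy : y ∉ S)
    (h : ∀ u ∈ S, ∀ v, G.Adj u v → v ∈ S) : ¬ G.Connected := by
  intro hc
  have hr : G.Reachable x y := hc.preconnected x y
  obtain ⟨p⟩ := hr
  have : ∀ (a b : V), G.Walk a b → a ∈ S → b ∈ S := by
    intro a b p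
    induction p with
    | nil => exact id
    | cons hab _ ih => exact fun ha => ih (h _ ha _ hab)
  exact hy (this x y p hx)

/-- Removing a vertex. -/
lemma univ_map_ne [Fintype V] (f : V → ℕ) (y : V) :
    (Finset.univ : Finset V).val.map f =
      f y ::ₘ (Finset.univ : Finset {v : V // v ≠ y}).val.map (fun v => f v.1) := by
  have h1 : (Finset.univ : Finset V) = insert y ((Finset.univ : Finset {v : V // v ≠ y}).map
      (Function.Embedding.subtype _)) := by
    ext a
    by_cases h : a = y
    · simp [h]
    · simp [h]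
  conv_lhs => rw [h1]
  rw [Finset.insert_val_of_notMem (by simp), Multiset.map_cons, Finset.map_val, Multiset.map_map]
  rfl

lemma dg_comap [Finite V] (G : SimpleGraph V) (y : V) (u : {v : V // v ≠ y}) :
    dg (G.comap (Subtype.val : {v : V // v ≠ y} → V)) u + ind (G.Adj u.1 y) =
      dg G u.1 := by
  unfold dg
  by_cases h : G.Adj u.1 y
  · have : G.neighborSet u.1 = insert y
        (Subtype.val '' ((G.comap (Subtype.val : {v : V // v ≠ y} → V)).neighborSet u)) := by
      ext b
      by_cases hb : b = y
      · subst hb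
        simp [h]
      · simp [hb]
    rw [this, Set.ncard_insert_of_notMem (by simp) (Set.toFinite _),
      Set.ncard_image_of_injective _ Subtype.val_injective]
    simp [h, ind]
  · have : G.neighborSet u.1 =
        (Subtype.val '' ((G.comap (Subtype.val : {v : V // v ≠ y} → V)).neighborSet u)) := by
      ext b
      by_cases hb : b = y
      · subst hb
        simp [h]
      · simp [hb]
    rw [this, Set.ncard_image_of_injective _ Subtype.val_injective]
    simp [h, ind]

end basics

end Pool.Agent.MP_7eb9fd_co
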