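import Pool.Agent.Lib.MP_7eb9fd_co.Struct

set_option autoImplicit false

namespace Pool.Agent.MP_7eb9fd_co

open Finset Classical

lemma graphical_iff {s : Multiset ℕ} : Graphical s ↔ Gr s := by
  constructor
  · rintro ⟨G, hG⟩
    exact ⟨Fin s.card, inferInstance, G, hG⟩
  · rintro ⟨V, _, H, hH⟩
    have hcard : Fintype.card V = s.card := by rw [← card_degs H, hH]
    obtain ⟨K, hK1, -⟩ := exists_fin V H s.card hcard
    exact ⟨K, hK1.trans hH⟩

lemma fc_iff {s : Multiset ℕ} : ForciblyConnected s ↔ Gr s ∧ ¬ Dis s := by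
  unfold ForciblyConnected
  rw [graphical_iff]
  constructor
  · rintro ⟨h1, h2⟩
    refine ⟨h1, ?_⟩
    rintro ⟨V, _, H, hH, hc⟩
    have hcard : Fintype.card V = s.card := by rw [← card_degs H, hH]
    obtain ⟨K, hK1, hK2⟩ := exists_fin V H s.card hcard
    exact hc (hK2.1 (h2 K (hK1.trans hH)))
  · rintro ⟨h1, h2⟩
    refine ⟨h1, fun G hG => ?_⟩
    by_contra hc
    exact h2 ⟨Fin s.card, inferInstance, G, hG, hc⟩

lemma FC_eq (n j : ℕ) : FC n j = {s ∈ Parts n j | ForciblyConnected s} := by
  ext s
  rw [mem_FC, Set.mem_setOf_eq, fc_iff]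
  unfold Parts
  simp only [Set.mem_setOf_eq]
  tauto

/-- The structure theorem. -/
lemma structure_thm (r : Multiset ℕ) (hr : r ≠ 0) (hpos : ∀ x ∈ r, 1 ≤ x) :
    ForciblyConnected (1 ::ₘ 1 ::ₘ r) ↔ Graphical (1 ::ₘ 1 ::ₘ r) ∧ ¬ Graphical r := by
  rw [fc_iff, graphical_iff, graphical_iff]
  constructor
  · rintro ⟨h1, h2⟩
    exact ⟨h1, fun h => h2 (dis_edge r h hr)⟩
  · rintro ⟨h1, h2⟩
    exact ⟨h1, fun h => h2 (gr_of_dis r hpos h)⟩

lemma parts_finite (n j : ℕ) : (Parts n j).Finite := by
  apply Set.Finite.subset (Set.finite_range (fun p : Nat.Partition n => p.parts))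
  rintro s ⟨-, hs, hp⟩
  exact ⟨⟨s, fun {i} hi => hp i hi, hs⟩, rfl⟩

lemma count_identity (n j : ℕ) (hj : 1 ≤ j) :
    Gn (n + 2) (j + 2) = F (n + 2) (j + 2) + Gn n j + (Nset (n + 2) (j + 2)).ncard := by
  have hinj : Function.Injective (fun r : Multiset ℕ => 1 ::ₘ 1 ::ₘ r) := by
    intro a b hab
    simpa using hab
  have hset : {s ∈ Parts (n + 2) (j + 2) | Graphical s} =
      (FC (n + 2) (j + 2) ∪ (fun r : Multiset ℕ => 1 ::ₘ 1 ::ₘ r) '' {s ∈ Parts n j | Graphical s}) ∪
        Nset (n + 2) (j + 2) := by
    rw [FC_eq]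
    ext s
    constructor
    · rintro ⟨hs, hg⟩
      by_cases h1 : ForciblyConnected s
      · exact Or.inl (Or.inl ⟨hs, h1⟩)
      by_cases h2 : s.count 1 ≤ 1
      · exact Or.inr ⟨hs, hg, h1, h2⟩
      have h3 : 2 ≤ s.count 1 := by omega
      rw [Multiset.le_count_iff_replicate_le] at h3
      obtain ⟨r, hr⟩ := Multiset.le_iff_exists_add.1 h3
      have hr' : s = 1 ::ₘ 1 ::ₘ r := by
        rw [hr]
        simp [Multiset.replicate_succ]
      subst hr'
      obtain ⟨e1, e2, e3⟩ := hs
      simp only [Multiset.card_cons] at e1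
      simp only [Multiset.sum_cons] at e2
      have hposr : ∀ x ∈ r, 1 ≤ x := fun x hx => e3 x (by simp [hx])
      have hrne : r ≠ 0 := by
        rintro rfl
        simp at e1
        omega
      refine Or.inl (Or.inr ⟨r, ⟨⟨by omega, by omega, hposr⟩, ?_⟩, rfl⟩)
      by_contra hng
      exact h1 ((structure_thm r hrne hposr).2 ⟨hg, hng⟩)
    · rintro ((⟨hs, hf⟩ | ⟨r, ⟨⟨e1, e2, e3⟩, hg⟩, rfl⟩) | ⟨hs, hg, -, -⟩)
      · exact ⟨hs, hf.1⟩
      · have hrne : r ≠ 0 := by
          rintro rfl
          simp at e1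
          omega
        refine ⟨⟨by simp [e1], by simp only [Multiset.sum_cons]; omega, ?_⟩, ?_⟩
        · intro x hx
          simp only [Multiset.mem_cons] at hx
          rcases hx with rfl | rfl | hx
          · exact le_refl _
          · exact le_refl _
          · exact e3 x hx
        · exact graphical_iff.2 (gr_of_dis' (dis_edge r (graphical_iff.1 hg) hrne))
      · exact ⟨hs, hg⟩
  have hfin1 : {s ∈ Parts n j | Graphical s}.Finite := (parts_finite n j).subset (fun s hs => hs.1)
  have hfin2 : (FC (n + 2) (j + 2)).Finite := fc_finite _ _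
  have hfin3 : (Nset (n + 2) (j + 2)).Finite := (parts_finite _ _).subset (fun s hs => hs.1)
  have hd1 : Disjoint (FC (n + 2) (j + 2))
      ((fun r : Multiset ℕ => 1 ::ₘ 1 ::ₘ r) '' {s ∈ Parts n j | Graphical s}) := by
    rw [Set.disjoint_left, FC_eq]
    rintro s ⟨hs, hf⟩ ⟨r, ⟨⟨e1, e2, e3⟩, hg⟩, rfl⟩
    have hrne : r ≠ 0 := by
      rintro rfl
      simp at e1
      omega
    exact ((structure_thm r hrne e3).1 hf).2 hg
  have hd2 : Disjoint (FC (n + 2) (j + 2) ∪
      (fun r : Multiset ℕ => 1 ::ₘ 1 ::ₘ r) '' {s ∈ Parts n j | Graphical s})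
      (Nset (n + 2) (j + 2)) := by
    rw [Set.disjoint_left, FC_eq]
    rintro s (⟨hs, hf⟩ | ⟨r, -, rfl⟩) ⟨-, -, h1, h2⟩
    · exact h1 hf
    · simp at h2
  unfold Gn
  rw [hset, Set.ncard_union_eq hd2 (hfin2.union (hfin1.image _)) hfin3,
    Set.ncard_union_eq hd1 hfin2 (hfin1.image _), Set.ncard_image_of_injective _ hinj]
  rfl

/-- All partitions with at most one part 1. -/
def Qset (n j : ℕ) : Set (Multiset ℕ) := {s ∈ Parts n j | s.count 1 ≤ 1}

lemma Nset_eq (n j : ℕ) (hev : Even n) (hn : n + 7 ≤ 3 * j) : Nset n j = Qset n j := by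
  ext s
  constructor
  · rintro ⟨h1, h2, h3, h4⟩
    exact ⟨h1, h4⟩
  · rintro ⟨h1, h4⟩
    have hd : Dis s := by
      obtain ⟨e1, e2, e3⟩ := h1
      exact dis_of_few s e3 h4 (by rw [e2]; exact hev) (by rw [e1, e2]; exact hn)
    exact ⟨h1, graphical_iff.2 (gr_of_dis' hd), fun h => (fc_iff.1 h).2 hd, h4⟩

/-- Add 2 to every part and fill up with parts 2. -/
def fill (j : ℕ) (q : Multiset ℕ) : Multiset ℕ :=
  q.map (fun x => x + 2) + Multiset.replicate (j - q.card) 2

lemma fill_filter (j : ℕ) (q : Multiset ℕ) (hq : ∀ x ∈ q, 1 ≤ x) :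
    (fill j q).filter (fun x => 3 ≤ x) = q.map (fun x => x + 2) := by
  unfold fill
  rw [Multiset.filter_add]
  have h1 : (Multiset.replicate (j - q.card) 2).filter (fun x => 3 ≤ x) = 0 := by
    rw [Multiset.filter_eq_nil]
    intro a ha
    rw [Multiset.eq_of_mem_replicate ha]
    omega
  have h2 : (q.map (fun x => x + 2)).filter (fun x => 3 ≤ x) = q.map (fun x => x + 2) := by
    rw [Multiset.filter_eq_self]
    intro a ha
    obtain ⟨b, hb, rfl⟩ := Multiset.mem_map.1 ha
    have := hq b hb
    omega
  rw [h1, h2, add_zero]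

lemma fill_inj (j : ℕ) (q q' : Multiset ℕ) (hq : ∀ x ∈ q, 1 ≤ x) (hq' : ∀ x ∈ q', 1 ≤ x)
    (h : fill j q = fill j q') : q = q' := by
  have h1 := congrArg (Multiset.filter (fun x => 3 ≤ x)) h
  rw [fill_filter j q hq, fill_filter j q' hq'] at h1
  exact Multiset.map_injective (fun a b hab => by simpa using hab) h1

lemma sum_map_two (q : Multiset ℕ) : (q.map (fun x => x + 2)).sum = q.sum + 2 * q.card := by
  induction q using Multiset.induction_on with
  | empty => simp
  | cons x q ih =>
    simp only [Multiset.map_cons, Multiset.sum_cons, Multiset.card_cons, ih]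
    omega

lemma card_le_sum (q : Multiset ℕ) (hq : ∀ x ∈ q, 1 ≤ x) : q.card ≤ q.sum := by
  induction q using Multiset.induction_on with
  | empty => simp
  | cons x q ih =>
    have h1 := ih (fun y hy => hq y (Multiset.mem_cons_of_mem hy))
    have h2 := hq x (Multiset.mem_cons_self _ _)
    rw [Multiset.card_cons, Multiset.sum_cons]
    omega

lemma fill_count (j : ℕ) (q : Multiset ℕ) : (fill j q).count 1 = 0 := by
  unfold fill
  rw [Multiset.count_eq_zero, Multiset.mem_add, not_or]
  refine ⟨?_, ?_⟩
  · intro h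
    obtain ⟨b, hb, h⟩ := Multiset.mem_map.1 h
    omega
  · intro h
    have := Multiset.eq_of_mem_replicate h
    omega

lemma fill_surj (H : Multiset ℕ) (a : ℕ) (hH : ∀ x ∈ H, 3 ≤ x) :
    fill (a + H.card) (H.map (fun x => x - 2)) = Multiset.replicate a 2 + H := by
  unfold fill
  rw [Multiset.card_map, Nat.add_sub_cancel, Multiset.map_map, add_comm]
  congr 1
  conv_rhs => rw [← Multiset.map_id H]
  apply Multiset.map_congr rfl
  intro x hx
  have := hH x hx
  simp only [Function.comp, id]
  omega

lemma Qset_card (n j : ℕ) (h2 : 2 * j ≤ n) (hn : n + 7 ≤ 3 * j) :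
    (Qset n j).ncard = Fintype.card (Nat.Partition (n - 2 * j)) +
      Fintype.card (Nat.Partition (n - 2 * j + 1)) := by
  let f0 : Nat.Partition (n - 2 * j) → Multiset ℕ := fun p => fill j p.parts
  let f1 : Nat.Partition (n - 2 * j + 1) → Multiset ℕ := fun p => 1 ::ₘ fill (j - 1) p.parts
  have hset : Qset n j = Set.range f0 ∪ Set.range f1 := by
    ext s
    constructor
    · rintro ⟨⟨e1, e2, e3⟩, h4⟩
      obtain ⟨a, H, hs, hH⟩ := split3 s e3
      have hHc : ∀ x ∈ H.map (fun x => x - 2), 1 ≤ x := by
        intro x hx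
        obtain ⟨b, hb, rfl⟩ := Multiset.mem_map.1 hx
        have := hH b hb
        omega
      have hsum : (H.map (fun x => x - 2)).sum + 2 * H.card = H.sum := by
        have h1 := sum_map_two (H.map (fun x => x - 2))
        rw [Multiset.card_map, Multiset.map_map] at h1
        rw [← h1]
        congr 1
        conv_rhs => rw [← Multiset.map_id H]
        apply Multiset.map_congr rfl
        intro x hx
        have := hH x hx
        simp only [Function.comp, id]
        omega
      generalize hb : s.count 1 = b at *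
      have c1 : s.card = b + a + H.card := by
        rw [hs]; simp
      have c2 : s.sum = b + 2 * a + H.sum := by
        rw [hs]; simp; ring
      rcases b with _ | _ | b
      · left
        refine ⟨⟨H.map (fun x => x - 2), fun {i} hi => hHc i hi, by omega⟩, ?_⟩
        show fill j (H.map (fun x => x - 2)) = s
        have hj : j = a + H.card := by omega
        rw [hj, fill_surj H a hH, hs]
        simp
      · right
        refine ⟨⟨H.map (fun x => x - 2), fun {i} hi => hHc i hi, by omega⟩, ?_⟩
        show 1 ::ₘ fill (j - 1) (H.map (fun x => x - 2)) = s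
        have hj : j - 1 = a + H.card := by omega
        rw [hj, fill_surj H a hH, hs]
        simp [Multiset.replicate_succ]
      · omega
    · have hp : ∀ {m : ℕ} (p : Nat.Partition m), ∀ x ∈ p.parts, 1 ≤ x := fun p x hx => p.parts_pos hx
      have hc : ∀ {m : ℕ} (p : Nat.Partition m), p.parts.card ≤ m := by
        intro m p
        have := card_le_sum p.parts (hp p)
        rw [p.parts_sum] at this
        exact this
      have hfp : ∀ (j : ℕ) (q : Multiset ℕ), ∀ x ∈ fill j q, 1 ≤ x := by
        intro j q x hx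
        unfold fill at hx
        rcases Multiset.mem_add.1 hx with h | h
        · obtain ⟨b, hb, rfl⟩ := Multiset.mem_map.1 h
          omega
        · rw [Multiset.eq_of_mem_replicate h]
          omega
      rintro (⟨p, rfl⟩ | ⟨p, rfl⟩)
      · have h5 := hc p
        refine ⟨⟨?_, ?_, hfp _ _⟩, ?_⟩
        · show (fill j p.parts).card = j
          unfold fill
          rw [Multiset.card_add, Multiset.card_map, Multiset.card_replicate]
          omega
        · show (fill j p.parts).sum = n
          unfold fill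
          rw [Multiset.sum_add, sum_map_two, Multiset.sum_replicate, p.parts_sum, smul_eq_mul]
          omega
        · show (fill j p.parts).count 1 ≤ 1
          rw [fill_count]
          omega
      · have h5 := hc p
        refine ⟨⟨?_, ?_, ?_⟩, ?_⟩
        · show (1 ::ₘ fill (j - 1) p.parts).card = j
          unfold fill
          rw [Multiset.card_cons, Multiset.card_add, Multiset.card_map, Multiset.card_replicate]
          omega
        · show (1 ::ₘ fill (j - 1) p.parts).sum = n
          unfold fill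
          rw [Multiset.sum_cons, Multiset.sum_add, sum_map_two, Multiset.sum_replicate,
            p.parts_sum, smul_eq_mul]
          omega
        · intro x hx
          rcases Multiset.mem_cons.1 hx with rfl | hx
          · exact le_refl _
          · exact hfp _ _ x hx
        · show (1 ::ₘ fill (j - 1) p.parts).count 1 ≤ 1
          rw [Multiset.count_cons_self, fill_count]
  have i0 : Function.Injective f0 := by
    intro p q hpq
    have := fill_inj j p.parts q.parts (fun x hx => p.parts_pos hx) (fun x hx => q.parts_pos hx) hpq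
    exact Nat.Partition.ext this
  have i1 : Function.Injective f1 := by
    intro p q hpq
    have h := (Multiset.cons_inj_right _).1 hpq
    have := fill_inj (j - 1) p.parts q.parts (fun x hx => p.parts_pos hx)
      (fun x hx => q.parts_pos hx) h
    exact Nat.Partition.ext this
  have hdis : Disjoint (Set.range f0) (Set.range f1) := by
    rw [Set.disjoint_left]
    rintro s ⟨p, rfl⟩ ⟨q, hq⟩
    have h1 : (fill j p.parts).count 1 = 0 := fill_count _ _
    have h2 : (1 ::ₘ fill (j - 1) q.parts).count 1 = (fill j p.parts).count 1 := by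
      have := congrArg (Multiset.count 1) hq
      exact this
    rw [Multiset.count_cons_self, fill_count, h1] at h2
    omega
  rw [hset, Set.ncard_union_eq hdis (Set.finite_range _) (Set.finite_range _),
    ← Set.image_univ, ← Set.image_univ, Set.ncard_image_of_injective _ i0,
    Set.ncard_image_of_injective _ i1, Set.ncard_univ, Set.ncard_univ, Nat.card_eq_fintype_card,
    Nat.card_eq_fintype_card]

end Pool.Agent.MP_7eb9fd_co
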