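import Mathlib

/-!
# Degree sequences, forcibly connected graphical partitions
-/

set_option autoImplicit false

namespace Pool.Agent.MP_7eb9fd_co

open Finset Classical

/-- The degree of a vertex. -/
noncomputable def dg {V : Type} (G : SimpleGraph V) (v : V) : ℕ := (G.neighborSet v).ncard

/-- The multiset of the degrees of a finite graph. -/
noncomputable def degs {V : Type} [Fintype V] (G : SimpleGraph V) : Multiset ℕ :=
  (Finset.univ : Finset V).val.map (dg G)

/-- The forcibly connected graphical partitions of n with exactly j parts, as multisets:
j positive integers with sum n, the degrees of some simple graph on j vertices,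
all such graphs being connected. -/
def FC (n j : ℕ) : Set (Multiset ℕ) :=
  {s | s.card = j ∧ s.sum = n ∧ (∀ x ∈ s, 1 ≤ x) ∧ (∃ G : SimpleGraph (Fin j), degs G = s) ∧
    ∀ G : SimpleGraph (Fin j), degs G = s → G.Connected}

/-- The number F(n,j). -/
noncomputable def F (n j : ℕ) : ℕ := (FC n j).ncard

/-- The multiset s is the degree sequence of a simple graph. -/
def Graphical (s : Multiset ℕ) : Prop := ∃ G : SimpleGraph (Fin s.card), degs G = s

/-- Graphical, and every simple graph with this degree sequence is connected. -/
def ForciblyConnected (s : Multiset ℕ) : Prop :=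
  Graphical s ∧ ∀ G : SimpleGraph (Fin s.card), degs G = s → G.Connected

/-- The partitions of n into exactly j positive parts. -/
def Parts (n j : ℕ) : Set (Multiset ℕ) := {s | s.card = j ∧ s.sum = n ∧ ∀ x ∈ s, 1 ≤ x}

/-- The number of graphical partitions of n with exactly j parts. -/
noncomputable def Gn (n j : ℕ) : ℕ := {s ∈ Parts n j | Graphical s}.ncard

/-- The graphical partitions with at most one part 1 that are not forcibly connected. -/
def Nset (n j : ℕ) : Set (Multiset ℕ) :=
  {s ∈ Parts n j | Graphical s ∧ ¬ ForciblyConnected s ∧ s.count 1 ≤ 1}

end Pool.Agent.MP_7eb9fd_co
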