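import Pool.Agent.Lib.MP_7eb9fd_co.Star

set_option autoImplicit false

namespace Pool.Agent.MP_7eb9fd_co

open Finset Classical

lemma fc_finite (n j : ℕ) : (FC n j).Finite := by
  apply Set.Finite.subset (Set.finite_range (fun p : Nat.Partition n => p.parts))
  rintro s ⟨-, hs, hp, -⟩
  exact ⟨⟨s, fun {i} hi => hp i hi, hs⟩, rfl⟩

lemma mem_FC {n j : ℕ} {s : Multiset ℕ} : s ∈ FC n j ↔
    s.card = j ∧ s.sum = n ∧ (∀ x ∈ s, 1 ≤ x) ∧ Gr s ∧ ¬ Dis s := by
  constructor
  · rintro ⟨h1, h2, h3, ⟨G, hG⟩, h5⟩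
    refine ⟨h1, h2, h3, ⟨Fin j, inferInstance, G, hG⟩, ?_⟩
    rintro ⟨V, _, H, hH, hc⟩
    have hcard : Fintype.card V = j := by rw [← card_degs H, hH, h1]
    obtain ⟨K, hK1, hK2⟩ := exists_fin V H j hcard
    exact hc (hK2.1 (h5 K (hK1.trans hH)))
  · rintro ⟨h1, h2, h3, ⟨V, _, H, hH⟩, h5⟩
    have hcard : Fintype.card V = j := by rw [← card_degs H, hH, h1]
    obtain ⟨K, hK1, hK2⟩ := exists_fin V H j hcard
    refine ⟨h1, h2, h3, ⟨K, hK1.trans hH⟩, ?_⟩
    intro G hG
    by_contra hc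
    exact h5 ⟨Fin j, inferInstance, G, hG, hc⟩

lemma dg_eq {V : Type} [Fintype V] (G : SimpleGraph V) (v : V) : dg G v = G.degree v := by
  unfold dg
  rw [← SimpleGraph.card_neighborSet_eq_degree, Set.ncard_eq_toFinset_card', Set.toFinset_card]

lemma even_of_gr {s : Multiset ℕ} (h : Gr s) : Even s.sum := by
  obtain ⟨V, _, G, rfl⟩ := h
  have h1 : (degs G).sum = ∑ v : V, G.degree v := by
    unfold degs
    rw [Finset.sum]
    congr 1
    apply Multiset.map_congr rfl
    intro v _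
    exact dg_eq G v
  rw [h1, G.sum_degrees_eq_twice_card_edges]
  exact even_two_mul _

lemma le_of_gr {s : Multiset ℕ} (h : Gr s) : ∀ x ∈ s, x + 1 ≤ s.card := by
  obtain ⟨V, _, G, rfl⟩ := h
  intro x hx
  obtain ⟨v, -, rfl⟩ := Multiset.mem_map.1 hx
  rw [card_degs, dg_eq]
  exact G.degree_lt_card_verts v

lemma ones_bound (e : Multiset ℕ) : (∀ x ∈ e, 1 ≤ x) → 2 * e.card ≤ e.sum + e.count 1 := by
  induction e using Multiset.induction_on with
  | empty => simp
  | cons x e ih =>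
    intro h
    have h1 := ih (fun y hy => h y (Multiset.mem_cons_of_mem hy))
    have h2 := h x (Multiset.mem_cons_self _ _)
    rw [Multiset.card_cons, Multiset.sum_cons]
    by_cases hx : x = 1
    · subst hx
      rw [Multiset.count_cons_self]
      omega
    · rw [Multiset.count_cons_of_ne (fun h => hx h.symm)]
      omega

/-- The injection. -/
noncomputable def Phi (k : ℕ) (d : Multiset ℕ) : Multiset ℕ :=
  if k + 3 ∈ d then
    (k + 1) ::ₘ 2 ::ₘ 2 ::ₘ 2 ::ₘ (((((d.erase (k + 3)).erase 1).erase 1).erase 1).erase 1)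
  else 2 ::ₘ ((d.erase 1).erase 1)

lemma shape1 {n k : ℕ} (hn : n + 7 ≤ 3 * (k + 4)) {d : Multiset ℕ} (hd : d ∈ FC n (k + 4))
    (hk : k + 3 ∈ d) : ∃ r : Multiset ℕ, d = (k + 3) ::ₘ 1 ::ₘ 1 ::ₘ 1 ::ₘ 1 ::ₘ r ∧
      r.card + 1 = k := by
  obtain ⟨h1, h2, h3, h4, h5⟩ := mem_FC.1 hd
  obtain ⟨e, rfl⟩ := Multiset.exists_cons_of_mem hk
  rw [Multiset.card_cons] at h1
  rw [Multiset.sum_cons] at h2
  have h6 := ones_bound e (fun x hx => h3 x (Multiset.mem_cons_of_mem hx))
  have h7 : 4 ≤ e.count 1 := by omega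
  rw [Multiset.le_count_iff_replicate_le] at h7
  obtain ⟨r, hr⟩ := Multiset.le_iff_exists_add.1 h7
  refine ⟨r, ?_, ?_⟩
  · rw [hr]
    simp [Multiset.replicate_succ]
  · rw [hr, Multiset.card_add, Multiset.card_replicate] at h1
    omega

lemma shape2 {n k : ℕ} (hn : n + 7 ≤ 3 * (k + 4)) {d : Multiset ℕ} (hd : d ∈ FC n (k + 4)) :
    ∃ r : Multiset ℕ, d = 1 ::ₘ 1 ::ₘ r := by
  obtain ⟨h1, h2, h3, h4, h5⟩ := mem_FC.1 hd
  have h7 : 2 ≤ d.count 1 := by
    by_contra hcon
    exact h5 (dis_of_few d h3 (by omega) (even_of_gr h4) (by rw [h1, h2]; exact hn))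
  rw [Multiset.le_count_iff_replicate_le] at h7
  obtain ⟨r, hr⟩ := Multiset.le_iff_exists_add.1 h7
  refine ⟨r, ?_⟩
  rw [hr]
  simp [Multiset.replicate_succ]

lemma Phi1 {k : ℕ} (r : Multiset ℕ) : Phi k ((k + 3) ::ₘ 1 ::ₘ 1 ::ₘ 1 ::ₘ 1 ::ₘ r) =
    (k + 1) ::ₘ 2 ::ₘ 2 ::ₘ 2 ::ₘ r := by
  unfold Phi
  rw [if_pos (Multiset.mem_cons_self _ _)]
  simp only [Multiset.erase_cons_head]

lemma Phi2 {k : ℕ} (r : Multiset ℕ) (h : k + 3 ∉ 1 ::ₘ 1 ::ₘ r) : Phi k (1 ::ₘ 1 ::ₘ r) =
    2 ::ₘ r := by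
  unfold Phi
  rw [if_neg h]
  simp only [Multiset.erase_cons_head]

lemma phi_maps (n k : ℕ) (hn : n + 7 ≤ 3 * (k + 4)) :
    ∀ d ∈ FC n (k + 4), Phi k d ∈ FC n (k + 3) := by
  · intro d hd
    by_cases hk : k + 3 ∈ d
    · obtain ⟨r, rfl, hr⟩ := shape1 hn hd hk
      obtain ⟨h1, h2, h3, h4, h5⟩ := mem_FC.1 hd
      rw [Phi1]
      have hpos : ∀ x ∈ (k + 1) ::ₘ 2 ::ₘ 2 ::ₘ 2 ::ₘ r, 1 ≤ x := by
        intro x hx
        simp only [Multiset.mem_cons] at hx
        rcases hx with rfl | rfl | rfl | rfl | hx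
        · omega
        · omega
        · omega
        · omega
        · apply h3
          simp [hx]
      have hc : ((k + 1) ::ₘ 2 ::ₘ 2 ::ₘ 2 ::ₘ r).card = k + 3 := by
        simp only [Multiset.card_cons]
        omega
      refine mem_FC.2 ⟨hc, ?_, hpos, gr_star k r h4 hr, ?_⟩
      · simp only [Multiset.sum_cons] at h2 ⊢
        omega
      · rintro ⟨V, _, G, hG, hcon⟩
        obtain ⟨v, hv⟩ := pick1 G hG
        apply hcon
        apply conn_of_dom G v
        · rw [← card_degs G, hG, hc, hv]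
        · intro u
          apply hpos
          rw [← hG]
          exact Multiset.mem_map_of_mem _ (Finset.mem_univ u)
    · obtain ⟨r, rfl⟩ := shape2 hn hd
      obtain ⟨h1, h2, h3, h4, h5⟩ := mem_FC.1 hd
      rw [Phi2 r hk]
      simp only [Multiset.card_cons] at h1
      simp only [Multiset.sum_cons] at h2
      have hposr : ∀ x ∈ r, 1 ≤ x := fun x hx => h3 x (by simp [hx])
      refine mem_FC.2 ⟨by simp only [Multiset.card_cons]; omega, ?_, ?_, ?_, ?_⟩
      · simp only [Multiset.sum_cons]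
        omega
      · intro x hx
        rcases Multiset.mem_cons.1 hx with rfl | hx
        · omega
        · exact hposr x hx
      · apply gr_merge r h4 h5 hposr
        · intro x hx
          have hx' : x ∈ 1 ::ₘ 1 ::ₘ r := by simp [hx]
          have e1 := le_of_gr h4 x hx'
          simp only [Multiset.card_cons] at e1
          have e2 : x ≠ k + 3 := fun h => hk (h ▸ hx')
          omega
        · omega
      · intro h
        exact h5 (dis_split r h)

lemma phi_inj (n k : ℕ) (hn : n + 7 ≤ 3 * (k + 4)) : Set.InjOn (Phi k) (FC n (k + 4)) := by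
  · intro d hd e he hde
    have mixed : ∀ d e : Multiset ℕ, d ∈ FC n (k + 4) → e ∈ FC n (k + 4) → k + 3 ∈ d →
        k + 3 ∉ e → Phi k d ≠ Phi k e := by
      intro d e hd he hkd hke hde
      obtain ⟨r, rfl, hr⟩ := shape1 hn hd hkd
      obtain ⟨r', rfl⟩ := shape2 hn he
      rw [Phi1, Phi2 r' hke, Multiset.cons_swap, Multiset.cons_inj_right] at hde
      have h1 := (mem_FC.1 hd).2.2.2.1
      have h2 := dis_star k r h1 hr
      apply (mem_FC.1 he).2.2.2.2
      rw [← hde]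
      convert h2 using 1
      simp only [← Multiset.singleton_add]
      abel
    by_cases hkd : k + 3 ∈ d
    · by_cases hke : k + 3 ∈ e
      · obtain ⟨r, rfl, hr⟩ := shape1 hn hd hkd
        obtain ⟨r', rfl, hr'⟩ := shape1 hn he hke
        rw [Phi1, Phi1] at hde
        simp only [Multiset.cons_inj_right] at hde
        rw [hde]
      · exact absurd hde (mixed d e hd he hkd hke)
    · by_cases hke : k + 3 ∈ e
      · exact absurd hde.symm (mixed e d he hd hke hkd)
      · obtain ⟨r, rfl⟩ := shape2 hn hd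
        obtain ⟨r', rfl⟩ := shape2 hn he
        rw [Phi2 r hkd, Phi2 r' hke] at hde
        simp only [Multiset.cons_inj_right] at hde
        rw [hde]

lemma step (n k : ℕ) (hn : n + 7 ≤ 3 * (k + 4)) : F n (k + 4) ≤ F n (k + 3) :=
  Set.ncard_le_ncard_of_injOn (Phi k) (phi_maps n k hn) (phi_inj n k hn) (fc_finite n (k + 3))

lemma small_empty (n j : ℕ) (h : n < j) : F n j = 0 := by
  have : FC n j = ∅ := by
    ext s
    simp only [Set.mem_empty_iff_false, iff_false]
    rintro ⟨h1, h2, h3, -⟩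
    have h4 : ∀ K : Multiset ℕ, (∀ x ∈ K, 1 ≤ x) → K.card ≤ K.sum := by
      intro K
      induction K using Multiset.induction_on with
      | empty => simp
      | cons x K ihK =>
        intro hK
        have h1 := ihK (fun y hy => hK y (Multiset.mem_cons_of_mem hy))
        have h2 := hK x (Multiset.mem_cons_self _ _)
        rw [Multiset.card_cons, Multiset.sum_cons]
        omega
    have := h4 s h3
    omega
  unfold F
  rw [this, Set.ncard_empty]

theorem main (n j : ℕ) (hn : n + 7 ≤ 3 * j) : F n j ≤ F n (j - 1) := by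
  by_cases hj : j < 4
  · rw [small_empty n j (by omega)]
    exact Nat.zero_le _
  · obtain ⟨k, rfl⟩ : ∃ k, j = k + 4 := ⟨j - 4, by omega⟩
    exact step n k hn

end Pool.Agent.MP_7eb9fd_co
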