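import Pool.Agent.Lib.MP_7eb9fd_co.Base

set_option autoImplicit false

namespace Pool.Agent.MP_7eb9fd_co

open Finset Classical

variable {V : Type}

lemma pick1 [Fintype V] (G : SimpleGraph V) {a : ℕ} {r : Multiset ℕ} (h : degs G = a ::ₘ r) :
    ∃ x, dg G x = a := by
  obtain ⟨L, hL, -, hm⟩ := pick (dg G) [a] r (Finset.univ : Finset V).val Finset.univ.nodup
    (show degs G = _ by rw [h]; rfl)
  rcases L with _ | ⟨x, _ | ⟨y, L⟩⟩
  · simp at hm
  · exact ⟨x, by simpa using hm⟩
  · simp at hm

lemma pick2 [Fintype V] (G : SimpleGraph V) {a b : ℕ} {r : Multiset ℕ}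
    (h : degs G = a ::ₘ b ::ₘ r) : ∃ x y, x ≠ y ∧ dg G x = a ∧ dg G y = b := by
  obtain ⟨L, hL, -, hm⟩ := pick (dg G) [a, b] r (Finset.univ : Finset V).val Finset.univ.nodup
    (show degs G = _ by rw [h]; simp [← Multiset.cons_coe])
  rcases L with _ | ⟨x, _ | ⟨y, _ | ⟨z, L⟩⟩⟩
  · simp at hm
  · simp at hm
  · simp only [List.map_cons, List.map_nil, List.cons.injEq, and_true] at hm
    exact ⟨x, y, by simpa using hL, hm.1, hm.2⟩
  · simp at hm

lemma pick5 [Fintype V] (G : SimpleGraph V) {a b c d e : ℕ} {r : Multiset ℕ}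
    (h : degs G = a ::ₘ b ::ₘ c ::ₘ d ::ₘ e ::ₘ r) : ∃ x y z w t, [x, y, z, w, t].Nodup ∧
      dg G x = a ∧ dg G y = b ∧ dg G z = c ∧ dg G w = d ∧ dg G t = e := by
  obtain ⟨L, hL, -, hm⟩ := pick (dg G) [a, b, c, d, e] r (Finset.univ : Finset V).val
    Finset.univ.nodup (show degs G = _ by rw [h]; simp [← Multiset.cons_coe])
  rcases L with _ | ⟨x, _ | ⟨y, _ | ⟨z, _ | ⟨w, _ | ⟨t, _ | ⟨s, L⟩⟩⟩⟩⟩⟩
  · simp at hm
  · simp at hm
  · simp at hm
  · simp at hm
  · simp at hm
  · simp only [List.map_cons, List.map_nil, List.cons.injEq, and_true] at hm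
    exact ⟨x, y, z, w, t, hL, hm.1, hm.2.1, hm.2.2.1, hm.2.2.2.1, hm.2.2.2.2⟩
  · simp at hm

lemma nbr_of_one (G : SimpleGraph V) {x : V} (h : dg G x = 1) :
    ∃ a, ∀ b, G.Adj x b ↔ b = a := by
  obtain ⟨a, ha⟩ := Set.ncard_eq_one.1 h
  refine ⟨a, fun b => ?_⟩
  have : b ∈ G.neighborSet x ↔ b ∈ ({a} : Set V) := by rw [ha]
  simpa using this

lemma nbr_of_two (G : SimpleGraph V) {x : V} (h : dg G x = 2) :
    ∃ a c, a ≠ c ∧ ∀ b, G.Adj x b ↔ (b = a ∨ b = c) := by
  obtain ⟨a, c, hac, ha⟩ := Set.ncard_eq_two.1 h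
  refine ⟨a, c, hac, fun b => ?_⟩
  have : b ∈ G.neighborSet x ↔ b ∈ ({a, c} : Set V) := by rw [ha]
  simpa using this

lemma exists_nbr (G : SimpleGraph V) {x : V} (h : 1 ≤ dg G x) : ∃ a, G.Adj x a := by
  have : (G.neighborSet x).Nonempty := by
    rw [Set.nonempty_iff_ne_empty]
    intro h0
    unfold dg at h
    rw [h0] at h
    simp at h
  exact this

/-- Splitting a vertex of degree two keeps a graph disconnected. -/
lemma dis_split (r : Multiset ℕ) (h : Dis (2 ::ₘ r)) : Dis (1 ::ₘ 1 ::ₘ r) := by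
  obtain ⟨V, _, G, hG, hc⟩ := h
  obtain ⟨z, hz⟩ := pick1 G hG
  obtain ⟨a, b, hab, hN⟩ := nbr_of_two G hz
  have hzb : G.Adj z b := (hN b).2 (Or.inr rfl)
  obtain ⟨G1, hG1⟩ := exists_del G hzb
  refine ⟨Option V, inferInstance, ext G1 {b}, ?_, ?_⟩
  · rw [degs_ext, Set.ncard_singleton]
    congr 1
    have hmc := map_change (fun v => dg G1 v + ind (v ∈ ({b} : Set V))) (dg G) [z]
      (by simp) (by
        intro v hv
        have hv' : v ≠ z := by simpa using hv
        have := hG1.dg v
        have e1 : ind (v = z) = 0 := ind_neg hv'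
        simp only [Set.mem_singleton_iff]
        omega)
    have h1 : (dg G1 z + ind (z ∈ ({b} : Set V))) = 1 := by
      have := hG1.dg z
      rw [hz] at this
      have hne : z ≠ b := hzb.ne
      have e1 : ind (z = b) = 0 := ind_neg hne
      have e2 : ind (z = z) = 1 := ind_pos rfl
      simp only [Set.mem_singleton_iff]
      omega
    simp only [List.map_cons, List.map_nil, h1, hz] at hmc
    have h2 : (Finset.univ : Finset V).val.map (dg G) = 2 ::ₘ r := hG
    rw [h2] at hmc
    have h3 : (2 ::ₘ r) + (([1] : List ℕ) : Multiset ℕ) = (1 ::ₘ r) + (([2] : List ℕ) : Multiset ℕ) := by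
      rw [Multiset.coe_singleton, Multiset.coe_singleton, ← Multiset.singleton_add 2 r,
        ← Multiset.singleton_add 1 r]
      abel
    rw [h3] at hmc
    exact add_right_cancel hmc
  · intro hcon
    apply hc
    let π : ext G1 {b} →g G :=
      { toFun := fun o => o.getD z
        map_rel' := by
          intro u v huv
          rcases u with _ | u <;> rcases v with _ | v
          · exact absurd huv (by simp)
          · have : v = b := by simpa using huv
            subst this
            exact hzb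
          · have : u = b := by simpa using huv
            subst this
            exact hzb.symm
          · have : G1.Adj u v := huv
            exact (hG1.2.2 u v).2 (Or.inl this) }
    refine SimpleGraph.Connected.map π ?_ hcon
    intro v
    exact ⟨some v, rfl⟩

lemma exists_nonadj [Fintype V] (G : SimpleGraph V) {w : V} (h : dg G w + 2 ≤ Fintype.card V) :
    ∃ u, u ≠ w ∧ ¬ G.Adj w u := by
  by_contra hcon
  push Not at hcon
  have h1 : (Set.univ : Set V) ⊆ insert w (G.neighborSet w) := by
    intro u _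
    by_cases hu : u = w
    · exact Or.inl hu
    · exact Or.inr (hcon u hu)
  have h2 := Set.ncard_le_ncard h1 (Set.toFinite _)
  rw [Set.ncard_univ, Nat.card_eq_fintype_card] at h2
  have h3 := Set.ncard_insert_le w (G.neighborSet w)
  unfold dg at h
  omega

/-- Merging two leaves. -/
lemma gr_merge (r : Multiset ℕ) (hG : Gr (1 ::ₘ 1 ::ₘ r)) (hd : ¬ Dis (1 ::ₘ 1 ::ₘ r))
    (hpos : ∀ x ∈ r, 1 ≤ x) (hmax : ∀ x ∈ r, x ≤ r.card) (hr : 1 ≤ r.card) :
    Gr (2 ::ₘ r) := by
  obtain ⟨V, _, G, hG⟩ := hG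
  have hcard : Fintype.card V = r.card + 2 := by
    rw [← card_degs G, hG]; simp
  have hpos' : ∀ v, 1 ≤ dg G v := by
    intro v
    have : dg G v ∈ degs G := Multiset.mem_map_of_mem _ (Finset.mem_univ v)
    rw [hG] at this
    rcases Multiset.mem_cons.1 this with h | h
    · omega
    rcases Multiset.mem_cons.1 h with h | h
    · omega
    · exact hpos _ h
  have hmax' : ∀ v, dg G v + 2 ≤ Fintype.card V := by
    intro v
    have : dg G v ∈ degs G := Multiset.mem_map_of_mem _ (Finset.mem_univ v)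
    rw [hG] at this
    rcases Multiset.mem_cons.1 this with h | h
    · omega
    rcases Multiset.mem_cons.1 h with h | h
    · omega
    · have := hmax _ h
      omega
  obtain ⟨x, y, hxy, hx, hy⟩ := pick2 G hG
  obtain ⟨a, ha⟩ := nbr_of_one G hx
  obtain ⟨b, hb⟩ := nbr_of_one G hy
  have hxa : G.Adj x a := (ha a).2 rfl
  have hyb : G.Adj y b := (hb b).2 rfl
  have hay : a ≠ y := by
    rintro rfl
    have hbx : b = x := ((hb x).1 hxa.symm).symm
    subst hbx
    have h3 : ∃ z, z ∉ ({b, a} : Set V) := by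
      by_contra hcon
      push Not at hcon
      have h1 : (Set.univ : Set V) ⊆ {b, a} := fun u _ => hcon u
      have h2 := Set.ncard_le_ncard h1 (Set.toFinite _)
      rw [Set.ncard_univ, Nat.card_eq_fintype_card] at h2
      have h3 := Set.ncard_insert_le b ({a} : Set V)
      rw [Set.ncard_singleton] at h3
      omega
    obtain ⟨z, hz⟩ := h3
    refine hd ⟨V, inferInstance, G, hG, not_conn_of_closed G {b, a} (x := b) (by simp) hz ?_⟩
    intro u hu v huv
    rcases hu with rfl | hu
    · have := (ha v).1 huv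
      simp [this]
    · rw [Set.mem_singleton_iff] at hu
      subst hu
      have := (hb v).1 huv
      simp [this]
  have hby : b ≠ y := hyb.ne.symm
  have hbx : b ≠ x := by
    rintro rfl
    exact hay ((ha y).1 hyb.symm).symm
  set H : SimpleGraph {v : V // v ≠ y} := G.comap Subtype.val with hH
  have hdH : ∀ u : {v : V // v ≠ y}, dg H u + ind (u.1 = b) = dg G u.1 := by
    intro u
    have h1 := dg_comap G y u
    have h2 : G.Adj u.1 y ↔ u.1 = b := by
      rw [G.adj_comm]
      exact hb u.1
    simp only [h2] at h1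
    exact h1
  have key : ∃ H' : SimpleGraph {v : V // v ≠ y}, ∀ u, dg H' u =
      dg G u.1 + ind (u = ⟨x, hxy⟩) := by
    by_cases hab : a = b
    · subst hab
      obtain ⟨u, hua, hau⟩ := exists_nonadj G (hmax' a)
      have hux : u ≠ x := by
        rintro rfl
        exact hau hxa.symm
      have huy : u ≠ y := by
        rintro rfl
        exact hau hyb.symm
      obtain ⟨t, hut⟩ := exists_nbr G (hpos' u)
      have hta : t ≠ a := by
        rintro rfl
        exact hau hut.symm
      have htx : t ≠ x := by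
        rintro rfl
        exact hua ((ha u).1 hut.symm)
      have hty : t ≠ y := by
        rintro rfl
        exact hua ((hb u).1 hut.symm)
      have hax : a ≠ x := hxa.ne.symm
      have hH1 : H.Adj ⟨u, huy⟩ ⟨t, hty⟩ := hut
      obtain ⟨H1, h1⟩ := exists_del H hH1
      have h1n : ¬ H1.Adj ⟨a, hay⟩ ⟨u, huy⟩ := by
        intro h
        exact hau ((h1.2.2 _ _).2 (Or.inl h))
      obtain ⟨H2, h2⟩ := exists_add H1 (u := ⟨a, hay⟩) (v := ⟨u, huy⟩)
        (by simpa using hua.symm) h1n
      have h2n : ¬ H2.Adj ⟨x, hxy⟩ ⟨t, hty⟩ := by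
        intro h
        rcases (h2.2.2 _ _).1 h with h | h | h
        · have : G.Adj x t := (h1.2.2 _ _).2 (Or.inl h)
          exact hta ((ha t).1 this)
        · simp only [Subtype.mk.injEq] at h
          exact hax h.1.symm
        · simp only [Subtype.mk.injEq] at h
          exact hux h.1.symm
      obtain ⟨H3, h3⟩ := exists_add H2 (u := ⟨x, hxy⟩) (v := ⟨t, hty⟩)
        (by simpa using htx.symm) h2n
      refine ⟨H3, fun v => ?_⟩
      have e1 := h1.dg v
      have e2 := h2.dg v
      have e3 := h3.dg v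
      have e4 := hdH v
      have e5 : ind (v.1 = a) = ind (v = (⟨a, hay⟩ : {v : V // v ≠ y})) :=
        ind_congr (by simp [Subtype.ext_iff])
      rw [e5] at e4
      omega
    · have hn : ¬ H.Adj ⟨x, hxy⟩ ⟨b, hby⟩ := by
        intro h
        exact hab ((ha b).1 h).symm
      obtain ⟨H1, h1⟩ := exists_add H (u := ⟨x, hxy⟩) (v := ⟨b, hby⟩)
        (by simpa using hbx.symm) hn
      refine ⟨H1, fun v => ?_⟩
      have e1 := h1.dg v
      have e4 := hdH v
      have e5 : ind (v.1 = b) = ind (v = (⟨b, hby⟩ : {v : V // v ≠ y})) :=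
        ind_congr (by simp [Subtype.ext_iff])
      rw [e5] at e4
      omega
  obtain ⟨H', hH'⟩ := key
  refine ⟨{v : V // v ≠ y}, inferInstance, H', ?_⟩
  have hM : (Finset.univ : Finset {v : V // v ≠ y}).val.map (fun v => dg G v.1) = 1 ::ₘ r := by
    have h1 := univ_map_ne (dg G) y
    have h2 : (Finset.univ : Finset V).val.map (dg G) = 1 ::ₘ 1 ::ₘ r := hG
    rw [h2, hy] at h1
    exact ((Multiset.cons_inj_right _).1 h1).symm
  have hmc := map_change (dg H') (fun v : {v : V // v ≠ y} => dg G v.1) [⟨x, hxy⟩]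
    (by simp) (by
      intro v hv
      have hv' : v ≠ ⟨x, hxy⟩ := by simpa using hv
      rw [hH' v, ind_neg hv']
      rfl)
  rw [hM] at hmc
  have h1 : dg H' ⟨x, hxy⟩ = 2 := by
    rw [hH', ind_pos rfl, hx]
  simp only [List.map_cons, List.map_nil, h1, hx] at hmc
  have h3 : (1 ::ₘ r) + (([2] : List ℕ) : Multiset ℕ) = (2 ::ₘ r) + (([1] : List ℕ) : Multiset ℕ) := by
    rw [Multiset.coe_singleton, Multiset.coe_singleton, ← Multiset.singleton_add 2 r,
      ← Multiset.singleton_add 1 r]
    abel
  rw [h3] at hmc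
  exact add_right_cancel hmc

lemma conn_of_dom [Fintype V] (G : SimpleGraph V) (v : V) (hv : Fintype.card V ≤ dg G v + 2)
    (hpos : ∀ u, 1 ≤ dg G u) : G.Connected := by
  have hr : ∀ u, G.Reachable v u := by
    intro u
    by_cases h1 : u = v
    · subst h1; exact SimpleGraph.Reachable.refl _
    by_cases h2 : G.Adj v u
    · exact h2.reachable
    obtain ⟨t, ht⟩ := exists_nbr G (hpos u)
    have htv : t ≠ v := by
      rintro rfl
      exact h2 ht.symm
    by_cases h3 : G.Adj v t
    · exact h3.reachable.trans ht.symm.reachable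
    exfalso
    have hut : u ≠ t := ht.ne
    have e1 : (insert v (insert u (insert t (G.neighborSet v)))).ncard = dg G v + 3 := by
      rw [Set.ncard_insert_of_notMem _ (Set.toFinite _), Set.ncard_insert_of_notMem _ (Set.toFinite _),
        Set.ncard_insert_of_notMem _ (Set.toFinite _)]
      · rfl
      · simpa using h3
      · simp [h2, hut]
      · simp only [Set.mem_insert_iff, SimpleGraph.mem_neighborSet, not_or]
        exact ⟨fun h => h1 h.symm, fun h => htv h.symm, G.loopless.irrefl v⟩
    have e2 := Set.ncard_le_ncard (Set.subset_univ (insert v (insert u (insert t (G.neighborSet v)))))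
      (Set.toFinite _)
    rw [Set.ncard_univ, Nat.card_eq_fintype_card, e1] at e2
    omega
  haveI : Nonempty V := ⟨v⟩
  exact SimpleGraph.Connected.mk (fun a b => (hr a).symm.trans (hr b))

end Pool.Agent.MP_7eb9fd_co
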