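import Pool.Agent.Lib.MP_7eb9fd_co.Ops

set_option autoImplicit false

namespace Pool.Agent.MP_7eb9fd_co

open Finset Classical

variable {V : Type}

lemma map_option [Fintype V] (f : Option V → ℕ) :
    (Finset.univ : Finset (Option V)).val.map f =
      f none ::ₘ (Finset.univ : Finset V).val.map (fun a => f (some a)) := by
  have h1 : (Finset.univ : Finset (Option V)).val =
      none ::ₘ (Finset.univ : Finset V).val.map some := by
    rw [univ_option]
    rfl
  rw [h1, Multiset.map_cons, Multiset.map_map]
  rfl

lemma can1 {M r : Multiset ℕ} {a b : ℕ}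
    (h : M + (([a] : List ℕ) : Multiset ℕ) = (a ::ₘ r) + (([b] : List ℕ) : Multiset ℕ)) :
    M = b ::ₘ r := by
  have h3 : (a ::ₘ r) + (([b] : List ℕ) : Multiset ℕ) =
      (b ::ₘ r) + (([a] : List ℕ) : Multiset ℕ) := by
    rw [Multiset.coe_singleton, Multiset.coe_singleton, ← Multiset.singleton_add a r,
      ← Multiset.singleton_add b r]
    abel
  rw [h3] at h
  exact add_right_cancel h

/-- A pendant edge. -/
lemma gr_pend (D : ℕ) (r : Multiset ℕ) (h : Gr (D ::ₘ r)) : Gr ((D + 1) ::ₘ 1 ::ₘ r) := by
  obtain ⟨V, _, G, hG⟩ := h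
  obtain ⟨v, hv⟩ := pick1 G hG
  refine ⟨Option V, inferInstance, ext G {v}, ?_⟩
  rw [degs_ext, Set.ncard_singleton, Multiset.cons_swap]
  congr 1
  have hmc := map_change (fun a => dg G a + ind (a ∈ ({v} : Set V))) (dg G) [v]
    (by simp) (by
      intro a ha
      have ha' : a ≠ v := by simpa using ha
      rw [ind_neg (by simpa using ha')]
      rfl)
  have h1 : dg G v + ind (v ∈ ({v} : Set V)) = D + 1 := by
    rw [hv, ind_pos (by simp)]
  have h2 : (Finset.univ : Finset V).val.map (dg G) = D ::ₘ r := hG
  simp only [List.map_cons, List.map_nil] at hmc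
  rw [h1, hv, h2] at hmc
  exact can1 hmc

/-- A triangle at a vertex. -/
lemma gr_tri (D : ℕ) (r : Multiset ℕ) (h : Gr (D ::ₘ r)) :
    Gr ((D + 2) ::ₘ 2 ::ₘ 2 ::ₘ r) := by
  obtain ⟨V, _, G, hG⟩ := h
  obtain ⟨v, hv⟩ := pick1 G hG
  refine ⟨Option (Option V), inferInstance, ext (ext G {v}) {some v, none}, ?_⟩
  rw [degs_ext, map_option, Set.ncard_pair (by simp), dg_ext_none, Set.ncard_singleton]
  rw [ind_pos (show (none : Option V) ∈ ({some v, none} : Set (Option V)) by simp)]
  have hmc := map_change (fun a => dg (ext G {v}) (some a) +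
      ind (some a ∈ ({some v, none} : Set (Option V)))) (dg G) [v]
    (by simp) (by
      intro a ha
      have ha' : a ≠ v := by simpa using ha
      rw [dg_ext_some, ind_neg (by simpa using ha'), ind_neg (by simpa using ha')]
      rfl)
  have h1 : dg (ext G {v}) (some v) + ind (some v ∈ ({some v, none} : Set (Option V))) =
      D + 2 := by
    rw [dg_ext_some, hv, ind_pos (by simp), ind_pos (by simp)]
  have h2 : (Finset.univ : Finset V).val.map (dg G) = D ::ₘ r := hG
  simp only [List.map_cons, List.map_nil, h1, hv, h2] at hmc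
  rw [can1 hmc, Multiset.cons_swap (D + 2) 2, Multiset.cons_swap (D + 2) 2]

/-- Two adjacent new vertices of degree three. -/
lemma gr_three (r : Multiset ℕ) (h : Gr (2 ::ₘ r)) : Gr (3 ::ₘ 3 ::ₘ 2 ::ₘ r) := by
  obtain ⟨V, _, G, hG⟩ := h
  obtain ⟨c, hc⟩ := pick1 G hG
  obtain ⟨p, q, hpq, hN⟩ := nbr_of_two G hc
  have hcp : G.Adj c p := (hN p).2 (Or.inl rfl)
  have hcq : G.Adj c q := (hN q).2 (Or.inr rfl)
  obtain ⟨G1, h1⟩ := exists_del G hcp
  have h1q : G1.Adj c q := by
    rcases (h1.2.2 c q).1 hcq with h | h | h
    · exact h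
    · exact absurd h.2.symm hpq
    · exact absurd h.1 hcp.ne
  have hE1 : (ext G1 {c, p}).Adj (some c) (some q) := h1q
  obtain ⟨G2, h2⟩ := exists_del (ext G1 {c, p}) hE1
  refine ⟨Option (Option V), inferInstance, ext G2 {some c, some q, none}, ?_⟩
  have hcq' : c ≠ q := hcq.ne
  have hn3 : ({some c, some q, none} : Set (Option V)).ncard = 3 := by
    rw [Set.ncard_insert_of_notMem (by simp [hcq']) (Set.toFinite _), Set.ncard_pair (by simp)]
  have hn2 : ({c, p} : Set V).ncard = 2 := Set.ncard_pair hcp.ne
  rw [degs_ext, map_option, hn3]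
  congr 1
  have e1 : dg G2 none + ind ((none : Option V) ∈ ({some c, some q, none} : Set (Option V))) = 3 := by
    have := h2.dg none
    rw [dg_ext_none, hn2, ind_neg (by simp), ind_neg (by simp)] at this
    rw [ind_pos (by simp)]
    omega
  rw [e1]
  congr 1
  have e2 : ∀ a : V, dg G2 (some a) + ind (some a ∈ ({some c, some q, none} : Set (Option V))) =
      dg G a := by
    intro a
    have f1 := h2.dg (some a)
    have f2 := h1.dg a
    rw [dg_ext_some] at f1
    by_cases ha : a = c
    · subst ha
      rw [ind_pos rfl, ind_neg hcp.ne] at f2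
      rw [ind_pos (show a ∈ ({a, p} : Set V) by simp), ind_pos rfl,
        ind_neg (show ¬ some a = some q by simpa using hcq')] at f1
      rw [ind_pos (by simp)]
      omega
    · rw [ind_neg ha] at f2
      rw [ind_neg (show ¬ some a = some c by simpa using ha)] at f1
      have g1 : ind (a ∈ ({c, p} : Set V)) = ind (a = p) := ind_congr (by simp [ha])
      have g2 : ind (some a ∈ ({some c, some q, none} : Set (Option V))) = ind (some a = some q) :=
        ind_congr (by simp [ha])
      rw [g1] at f1
      rw [g2]
      omega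
  have e3 : (Finset.univ : Finset V).val.map (fun a => dg G2 (some a) +
      ind (some a ∈ ({some c, some q, none} : Set (Option V)))) = degs G := by
    apply Multiset.map_congr rfl
    intro a _
    exact e2 a
  rw [e3, hG]

/-- A separate triangle. -/
lemma dis_tri (e : Multiset ℕ) (h : Gr e) (he : e ≠ 0) : Dis (2 ::ₘ 2 ::ₘ 2 ::ₘ e) := by
  obtain ⟨V, _, G, hG⟩ := h
  have hne : Nonempty V := by
    by_contra hV
    rw [not_nonempty_iff] at hV
    apply he
    rw [← hG]
    simp [degs]
  obtain ⟨a0⟩ := hne
  refine ⟨Option (Option (Option V)), inferInstance,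
    ext (ext (ext G ∅) {none}) {none, some none}, ?_, ?_⟩
  · rw [degs_ext, map_option, map_option, Set.ncard_pair (by simp)]
    congr 1
    rw [dg_ext_none, Set.ncard_singleton,
      ind_pos (show (none : Option (Option V)) ∈ ({none, some none} : Set (Option (Option V))) by simp)]
    congr 1
    rw [dg_ext_some, dg_ext_none, Set.ncard_empty,
      ind_pos (show (none : Option V) ∈ ({none} : Set (Option V)) by simp),
      ind_pos (show (some none : Option (Option V)) ∈ ({none, some none} : Set (Option (Option V))) by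
        simp)]
    congr 1
    rw [← hG]
    apply Multiset.map_congr rfl
    intro a _
    rw [dg_ext_some, dg_ext_some, ind_neg (by simp), ind_neg (by simp), ind_neg (by simp)]
    rfl
  · apply not_conn_of_closed _ {o : Option (Option (Option V)) | ∀ a, o ≠ some (some (some a))}
      (x := none) (y := some (some (some a0)))
    · simp
    · simp
    · intro u hu v huv
      rcases v with _ | _ | _ | v
      · simp
      · simp
      · simp
      · exfalso
        rcases u with _ | _ | _ | u
        · simp at huv
        · simp at huv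
        · simp at huv
        · exact hu u rfl

lemma gr_cycle (a : ℕ) (ha : 3 ≤ a) : Gr (Multiset.replicate a 2) := by
  obtain ⟨n, rfl⟩ : ∃ n, a = n + 3 := ⟨a - 3, by omega⟩
  refine ⟨Fin (n + 3), inferInstance, SimpleGraph.cycleGraph (n + 3), ?_⟩
  rw [Multiset.eq_replicate]
  refine ⟨by simp [degs], ?_⟩
  intro b hb
  obtain ⟨v, -, rfl⟩ := Multiset.mem_map.1 hb
  unfold dg
  rw [← SimpleGraph.cycleGraph_degree_three_le (v := v), ← SimpleGraph.card_neighborSet_eq_degree,
    Set.ncard_eq_toFinset_card', Set.toFinset_card]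

lemma L0 (N : ℕ) : ∀ (H : Multiset ℕ) (a : ℕ), H.sum = N → (∀ x ∈ H, 3 ≤ x) → Even H.sum →
    H.sum + 3 ≤ 3 * H.card + a → Gr (H + Multiset.replicate a 2) := by
  induction N using Nat.strong_induction_on with
  | _ N ih =>
  intro H a hN h3 hev hle
  have hlow : ∀ K : Multiset ℕ, (∀ x ∈ K, 3 ≤ x) → 3 * K.card ≤ K.sum := by
    intro K
    induction K using Multiset.induction_on with
    | empty => simp
    | cons x K ihK =>
      intro hK
      have h1 := ihK (fun y hy => hK y (Multiset.mem_cons_of_mem hy))
      have h2 := hK x (Multiset.mem_cons_self _ _)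
      rw [Multiset.card_cons, Multiset.sum_cons]
      omega
  by_cases h4 : ∃ D ∈ H, 4 ≤ D
  · obtain ⟨D, hD, hD4⟩ := h4
    obtain ⟨K, rfl⟩ := Multiset.exists_cons_of_mem hD
    have hK3 : ∀ x ∈ K, 3 ≤ x := fun x hx => h3 x (Multiset.mem_cons_of_mem hx)
    have hKl := hlow K hK3
    rw [Multiset.sum_cons] at hN hev hle
    rw [Multiset.card_cons] at hle
    by_cases hD5 : D = 4
    · subst hD5
      obtain ⟨c, rfl⟩ : ∃ c, a = c + 2 := ⟨a - 2, by omega⟩
      have h1 := ih K.sum (by omega) K (c + 1) rfl hK3
        (by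
          have : Even (4 + K.sum) := hev
          rcases this with ⟨m, hm⟩
          exact ⟨m - 2, by omega⟩) (by omega)
      rw [Multiset.replicate_succ, Multiset.add_cons] at h1
      have h2 := gr_tri _ _ h1
      have h5 : (4 ::ₘ K) + Multiset.replicate (c + 2) 2 =
          (2 + 2) ::ₘ 2 ::ₘ 2 ::ₘ (K + Multiset.replicate c 2) := by
        rw [Multiset.replicate_succ, Multiset.replicate_succ, Multiset.cons_add, Multiset.add_cons,
          Multiset.add_cons]
      rw [h5]
      exact h2
    · obtain ⟨c, rfl⟩ : ∃ c, a = c + 2 := ⟨a - 2, by omega⟩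
      obtain ⟨E, rfl⟩ : ∃ E, D = E + 2 := ⟨D - 2, by omega⟩
      have h1 := ih (E + K.sum) (by omega) (E ::ₘ K) c (by rw [Multiset.sum_cons])
        (by
          intro x hx
          rcases Multiset.mem_cons.1 hx with rfl | hx
          · omega
          · exact hK3 x hx)
        (by
          rw [Multiset.sum_cons]
          rcases hev with ⟨m, hm⟩
          exact ⟨m - 1, by omega⟩)
        (by rw [Multiset.sum_cons, Multiset.card_cons]; omega)
      rw [Multiset.cons_add] at h1
      have h2 := gr_tri _ _ h1
      have h5 : ((E + 2) ::ₘ K) + Multiset.replicate (c + 2) 2 =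
          (E + 2) ::ₘ 2 ::ₘ 2 ::ₘ (K + Multiset.replicate c 2) := by
        rw [Multiset.replicate_succ, Multiset.replicate_succ, Multiset.cons_add, Multiset.add_cons,
          Multiset.add_cons]
      rw [h5]
      exact h2
  · push Not at h4
    have hrep : H = Multiset.replicate H.card 3 := by
      rw [Multiset.eq_replicate]
      exact ⟨rfl, fun b hb => by
        have := h3 b hb
        have := h4 b hb
        omega⟩
    generalize hh : H.card = h at *
    subst hrep
    rcases h with _ | _ | h
    · rw [Multiset.replicate_zero, zero_add]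
      apply gr_cycle
      simp at hle
      omega
    · exfalso
      simp at hev
      exact absurd hev (by decide)
    · have hs : (Multiset.replicate (h + 1 + 1) 3).sum = 3 * h + 6 := by
        simp
        ring
      have hs' : (Multiset.replicate h 3).sum = 3 * h := by
        simp
        ring
      rw [hs] at hN hev hle
      obtain ⟨c, rfl⟩ : ∃ c, a = c + 1 := ⟨a - 1, by omega⟩
      have h1 := ih (3 * h) (by omega) (Multiset.replicate h 3) (c + 1) hs'
        (by
          intro x hx
          rw [Multiset.eq_of_mem_replicate hx])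
        (by
          rw [hs']
          rcases hev with ⟨m, hm⟩
          exact ⟨m - 3, by omega⟩)
        (by rw [hs', Multiset.card_replicate]; omega)
      rw [Multiset.replicate_succ, Multiset.add_cons] at h1
      have h2 := gr_three _ h1
      have h5 : (Multiset.replicate (h + 1 + 1) 3) + Multiset.replicate (c + 1) 2 =
          3 ::ₘ 3 ::ₘ 2 ::ₘ (Multiset.replicate h 3 + Multiset.replicate c 2) := by
        rw [Multiset.replicate_succ, Multiset.replicate_succ, Multiset.replicate_succ,
          Multiset.cons_add, Multiset.cons_add, Multiset.add_cons]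
      rw [h5]
      exact h2

lemma L1 (H : Multiset ℕ) (a : ℕ) (h3 : ∀ x ∈ H, 3 ≤ x) (hodd : ¬ Even H.sum)
    (hle : H.sum + 2 ≤ 3 * H.card + a) : Gr (1 ::ₘ (H + Multiset.replicate a 2)) := by
  have hH : H ≠ 0 := by
    rintro rfl
    simp at hodd
  obtain ⟨D, hD⟩ := Multiset.exists_mem_of_ne_zero hH
  obtain ⟨K, rfl⟩ := Multiset.exists_cons_of_mem hD
  have hK3 : ∀ x ∈ K, 3 ≤ x := fun x hx => h3 x (Multiset.mem_cons_of_mem hx)
  have hD3 := h3 D hD
  rw [Multiset.sum_cons] at hodd hle
  rw [Multiset.card_cons] at hle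
  obtain ⟨E, rfl⟩ : ∃ E, D = E + 1 := ⟨D - 1, by omega⟩
  have hev : Even (E + K.sum) := by
    rcases Nat.even_or_odd (E + K.sum) with h | h
    · exact h
    · exfalso
      apply hodd
      rcases h with ⟨m, hm⟩
      exact ⟨m + 1, by omega⟩
  have hfin : Gr (E ::ₘ (K + Multiset.replicate a 2)) := by
    by_cases hE : E = 2
    · subst hE
      have h1 := L0 _ K (a + 1) rfl hK3
        (by
          rcases hev with ⟨m, hm⟩
          exact ⟨m - 1, by omega⟩) (by omega)
      rw [Multiset.replicate_succ, Multiset.add_cons] at h1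
      exact h1
    · have h1 := L0 _ (E ::ₘ K) a rfl
        (by
          intro x hx
          rcases Multiset.mem_cons.1 hx with rfl | hx
          · omega
          · exact hK3 x hx)
        (by rw [Multiset.sum_cons]; exact hev)
        (by rw [Multiset.sum_cons, Multiset.card_cons]; omega)
      rw [Multiset.cons_add] at h1
      exact h1
  have h2 := gr_pend _ _ hfin
  rw [Multiset.cons_add, Multiset.cons_swap]
  exact h2

lemma split3 (d : Multiset ℕ) : (∀ x ∈ d, 1 ≤ x) → ∃ (a : ℕ) (H : Multiset ℕ),
    d = Multiset.replicate (d.count 1) 1 + Multiset.replicate a 2 + H ∧ ∀ x ∈ H, 3 ≤ x := by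
  induction d using Multiset.induction_on with
  | empty => intro _; exact ⟨0, 0, by simp, by simp⟩
  | cons x d ih =>
    intro hpos
    obtain ⟨a, H, h1, h2⟩ := ih (fun y hy => hpos y (Multiset.mem_cons_of_mem hy))
    have hx := hpos x (Multiset.mem_cons_self _ _)
    by_cases hx1 : x = 1
    · subst hx1
      refine ⟨a, H, ?_, h2⟩
      rw [Multiset.count_cons_self, Multiset.replicate_succ, Multiset.cons_add, Multiset.cons_add,
        ← h1]
    rw [Multiset.count_cons_of_ne (fun h => hx1 h.symm)]
    by_cases hx2 : x = 2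
    · subst hx2
      refine ⟨a + 1, H, ?_, h2⟩
      rw [Multiset.replicate_succ, Multiset.add_cons, Multiset.cons_add, ← h1]
    · refine ⟨a, x ::ₘ H, ?_, ?_⟩
      · rw [Multiset.add_cons, ← h1]
      · intro y hy
        rcases Multiset.mem_cons.1 hy with rfl | hy
        · omega
        · exact h2 y hy

lemma dis_of_few (d : Multiset ℕ) (hpos : ∀ x ∈ d, 1 ≤ x) (h1 : d.count 1 ≤ 1)
    (hev : Even d.sum) (hle : d.sum + 7 ≤ 3 * d.card) : Dis d := by
  obtain ⟨a, H, hd, hH⟩ := split3 d hpos
  have hlow : ∀ K : Multiset ℕ, (∀ x ∈ K, 3 ≤ x) → 3 * K.card ≤ K.sum := by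
    intro K
    induction K using Multiset.induction_on with
    | empty => simp
    | cons x K ihK =>
      intro hK
      have h1 := ihK (fun y hy => hK y (Multiset.mem_cons_of_mem hy))
      have h2 := hK x (Multiset.mem_cons_self _ _)
      rw [Multiset.card_cons, Multiset.sum_cons]
      omega
  have hHl := hlow H hH
  generalize d.count 1 = b at *
  subst hd
  simp only [Multiset.sum_add, Multiset.card_add, Multiset.sum_replicate, Multiset.card_replicate,
    smul_eq_mul, mul_one] at hev hle
  obtain ⟨c, rfl⟩ : ∃ c, a = c + 1 + 1 + 1 := ⟨a - 3, by omega⟩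
  have key : Gr (Multiset.replicate b 1 + Multiset.replicate c 2 + H) := by
    rcases b with _ | _ | b
    · have := L0 _ H c rfl hH (by
        rcases hev with ⟨m, hm⟩
        exact ⟨m - (c + 3), by omega⟩) (by omega)
      rw [Multiset.replicate_zero, zero_add, add_comm]
      exact this
    · have := L1 H c hH (by
        rintro ⟨m, hm⟩
        rcases hev with ⟨m', hm'⟩
        omega) (by omega)
      have h5 : Multiset.replicate (0 + 1) 1 + Multiset.replicate c 2 + H =
          1 ::ₘ (H + Multiset.replicate c 2) := by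
        rw [zero_add, Multiset.replicate_one, add_assoc, Multiset.singleton_add, add_comm H]
      rw [h5]
      exact this
    · omega
  have hne : Multiset.replicate b 1 + Multiset.replicate c 2 + H ≠ 0 := by
    intro h0
    have := congrArg Multiset.card h0
    simp only [Multiset.card_add, Multiset.card_replicate, Multiset.card_zero] at this
    omega
  have h6 := dis_tri _ key hne
  have h7 : Multiset.replicate b 1 + Multiset.replicate (c + 1 + 1 + 1) 2 + H =
      2 ::ₘ 2 ::ₘ 2 ::ₘ (Multiset.replicate b 1 + Multiset.replicate c 2 + H) := by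
    rw [Multiset.replicate_succ, Multiset.replicate_succ, Multiset.replicate_succ]
    simp only [Multiset.add_cons, Multiset.cons_add]
  rw [h7]
  exact h6

end Pool.Agent.MP_7eb9fd_co
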