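import Pool.Agent.Lib.MP_7eb9fd_co.Ops2

set_option autoImplicit false

namespace Pool.Agent.MP_7eb9fd_co

open Finset Classical

variable {V : Type}

lemma adj_of_full [Fintype V] (G : SimpleGraph V) {v : V} (h : dg G v + 1 = Fintype.card V) :
    ∀ u, u ≠ v → G.Adj v u := by
  intro u hu
  by_contra hn
  have e1 : (insert v (insert u (G.neighborSet v))).ncard = dg G v + 2 := by
    rw [Set.ncard_insert_of_notMem _ (Set.toFinite _), Set.ncard_insert_of_notMem _ (Set.toFinite _)]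
    · rfl
    · simpa using hn
    · simp only [Set.mem_insert_iff, SimpleGraph.mem_neighborSet, not_or]
      exact ⟨fun h => hu h.symm, G.loopless.irrefl v⟩
  have e2 := Set.ncard_le_ncard (Set.subset_univ (insert v (insert u (G.neighborSet v))))
    (Set.toFinite _)
  rw [Set.ncard_univ, Nat.card_eq_fintype_card, e1] at e2
  omega

/-- From a dominating vertex with four leaves: a disconnected realization. -/
lemma dis_star (j : ℕ) (r : Multiset ℕ) (hG : Gr ((j + 3) ::ₘ 1 ::ₘ 1 ::ₘ 1 ::ₘ 1 ::ₘ r))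
    (hr : r.card + 1 = j) : Dis ((j + 1) ::ₘ 2 ::ₘ 2 ::ₘ 1 ::ₘ 1 ::ₘ r) := by
  obtain ⟨V, _, G, hG⟩ := hG
  have hcard : Fintype.card V = j + 4 := by
    rw [← card_degs G, hG]
    simp only [Multiset.card_cons]
    omega
  obtain ⟨v, p1, p2, p3, p4, hnd, hv, h1, h2, h3, h4⟩ := pick5 G hG
  have hnd' := hnd
  simp only [List.nodup_cons, List.mem_cons, List.not_mem_nil, or_false, not_or,
    not_false_eq_true, List.nodup_nil, and_true] at hnd'
  obtain ⟨⟨hv1, hv2, hv3, hv4⟩, ⟨h12, h13, h14⟩, ⟨h23, h24⟩, h34⟩ := hnd'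
  have hfull := adj_of_full G (v := v) (by omega)
  have leaf : ∀ p, dg G p = 1 → p ≠ v → ∀ b, G.Adj p b ↔ b = v := by
    intro p hp hpv b
    obtain ⟨a, ha⟩ := nbr_of_one G hp
    have := (ha v).1 (hfull p hpv).symm
    subst this
    exact ha b
  have l1 := leaf p1 h1 (Ne.symm hv1)
  have l2 := leaf p2 h2 (Ne.symm hv2)
  have l3 := leaf p3 h3 (Ne.symm hv3)
  have l4 := leaf p4 h4 (Ne.symm hv4)
  obtain ⟨A, hA⟩ := exists_del G (hfull p3 (Ne.symm hv3))
  have hA4 : A.Adj v p4 := by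
    rcases (hA.2.2 v p4).1 (hfull p4 (Ne.symm hv4)) with h | h | h
    · exact h
    · exact absurd h.2.symm h34
    · exact absurd h.1 hv3
  obtain ⟨B, hB⟩ := exists_del A hA4
  have hBG : ∀ {a b}, B.Adj a b → G.Adj a b := by
    intro a b h
    exact (hA.2.2 a b).2 (Or.inl ((hB.2.2 a b).2 (Or.inl h)))
  have hB34 : ¬ B.Adj p3 p4 := by
    intro h
    exact hv4 ((l3 p4).1 (hBG h)).symm
  obtain ⟨C, hC⟩ := exists_add B h34 hB34
  have hC12 : ¬ C.Adj p1 p2 := by
    intro h
    rcases (hC.2.2 p1 p2).1 h with h | h | h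
    · exact hv2 ((l1 p2).1 (hBG h)).symm
    · exact h13 h.1
    · exact h14 h.1
  obtain ⟨D, hD⟩ := exists_add C h12 hC12
  refine ⟨V, inferInstance, D, ?_, ?_⟩
  · have hmc := map_change (dg D) (dg G) [v, p1, p2, p3, p4] hnd (by
      intro w hw
      simp only [List.mem_cons, List.not_mem_nil, or_false, not_or] at hw
      obtain ⟨w0, w1, w2, w3, w4⟩ := hw
      have a1 := hA.dg w
      have a2 := hB.dg w
      have a3 := hC.dg w
      have a4 := hD.dg w
      rw [ind_neg w0, ind_neg w3] at a1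
      rw [ind_neg w0, ind_neg w4] at a2
      rw [ind_neg w3, ind_neg w4] at a3
      rw [ind_neg w1, ind_neg w2] at a4
      omega)
    have ev : dg D v = j + 1 := by
      have a1 := hA.dg v
      have a2 := hB.dg v
      have a3 := hC.dg v
      have a4 := hD.dg v
      rw [ind_pos rfl, ind_neg hv3] at a1
      rw [ind_pos rfl, ind_neg hv4] at a2
      rw [ind_neg hv3, ind_neg hv4] at a3
      rw [ind_neg hv1, ind_neg hv2] at a4
      omega
    have e1 : dg D p1 = 2 := by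
      have a1 := hA.dg p1
      have a2 := hB.dg p1
      have a3 := hC.dg p1
      have a4 := hD.dg p1
      rw [ind_neg (Ne.symm hv1), ind_neg h13] at a1
      rw [ind_neg (Ne.symm hv1), ind_neg h14] at a2
      rw [ind_neg h13, ind_neg h14] at a3
      rw [ind_pos rfl, ind_neg h12] at a4
      omega
    have e2 : dg D p2 = 2 := by
      have a1 := hA.dg p2
      have a2 := hB.dg p2
      have a3 := hC.dg p2
      have a4 := hD.dg p2
      rw [ind_neg (Ne.symm hv2), ind_neg h23] at a1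
      rw [ind_neg (Ne.symm hv2), ind_neg h24] at a2
      rw [ind_neg h23, ind_neg h24] at a3
      rw [ind_neg (Ne.symm h12), ind_pos rfl] at a4
      omega
    have e3 : dg D p3 = 1 := by
      have a1 := hA.dg p3
      have a2 := hB.dg p3
      have a3 := hC.dg p3
      have a4 := hD.dg p3
      rw [ind_neg (Ne.symm hv3), ind_pos rfl] at a1
      rw [ind_neg (Ne.symm hv3), ind_neg h34] at a2
      rw [ind_pos rfl, ind_neg h34] at a3
      rw [ind_neg (Ne.symm h13), ind_neg (Ne.symm h23)] at a4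
      omega
    have e4 : dg D p4 = 1 := by
      have a1 := hA.dg p4
      have a2 := hB.dg p4
      have a3 := hC.dg p4
      have a4 := hD.dg p4
      rw [ind_neg (Ne.symm hv4), ind_neg (Ne.symm h34)] at a1
      rw [ind_neg (Ne.symm hv4), ind_pos rfl] at a2
      rw [ind_neg (Ne.symm h34), ind_pos rfl] at a3
      rw [ind_neg (Ne.symm h14), ind_neg (Ne.symm h24)] at a4
      omega
    have hG' : (Finset.univ : Finset V).val.map (dg G) =
      (j + 3) ::ₘ 1 ::ₘ 1 ::ₘ 1 ::ₘ 1 ::ₘ r := hG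
    simp only [List.map_cons, List.map_nil, ev, e1, e2, e3, e4, hv, h1, h2, h3, h4] at hmc
    rw [hG'] at hmc
    have hfin : ((j + 3) ::ₘ 1 ::ₘ 1 ::ₘ 1 ::ₘ 1 ::ₘ r) +
        (([j + 1, 2, 2, 1, 1] : List ℕ) : Multiset ℕ) =
        ((j + 1) ::ₘ 2 ::ₘ 2 ::ₘ 1 ::ₘ 1 ::ₘ r) +
        (([j + 3, 1, 1, 1, 1] : List ℕ) : Multiset ℕ) := by
      simp only [← Multiset.cons_coe, Multiset.coe_nil, ← Multiset.singleton_add]
      abel
    rw [hfin] at hmc
    exact add_right_cancel hmc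
  · apply not_conn_of_closed D {p3, p4} (x := p3) (y := v) (by simp) (by simp [hv3, hv4])
    intro u hu w huw
    have hDu : ∀ w, D.Adj u w → (B.Adj u w ∨ (u = p3 ∧ w = p4) ∨ (u = p4 ∧ w = p3)) ∨
        (u = p1 ∧ w = p2) ∨ (u = p2 ∧ w = p1) := by
      intro w h
      rcases (hD.2.2 u w).1 h with h | h
      · exact Or.inl ((hC.2.2 u w).1 h)
      · exact Or.inr h
    rcases hu with rfl | hu
    · rcases hDu w huw with (h | h | h) | h | h
      · exfalso
        have hwv : w = v := (l3 w).1 (hBG h)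
        subst hwv
        have h' : A.Adj w u := (hB.2.2 w u).2 (Or.inl h.symm)
        exact hA.2.1 h'
      · simp [h.2]
      · simp [h.2]
      · exact absurd h.1.symm h13
      · exact absurd h.1.symm h23
    · rw [Set.mem_singleton_iff] at hu
      subst hu
      rcases hDu w huw with (h | h | h) | h | h
      · exfalso
        have hwv : w = v := (l4 w).1 (hBG h)
        subst hwv
        exact hB.2.1 h.symm
      · simp [h.2]
      · simp [h.2]
      · exact absurd h.1.symm h14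
      · exact absurd h.1.symm h24

/-- From a dominating vertex with four leaves: a realization with one vertex less. -/
lemma gr_star (j : ℕ) (r : Multiset ℕ) (hG : Gr ((j + 3) ::ₘ 1 ::ₘ 1 ::ₘ 1 ::ₘ 1 ::ₘ r))
    (hr : r.card + 1 = j) : Gr ((j + 1) ::ₘ 2 ::ₘ 2 ::ₘ 2 ::ₘ r) := by
  obtain ⟨V, _, G, hG⟩ := hG
  have hcard : Fintype.card V = j + 4 := by
    rw [← card_degs G, hG]
    simp only [Multiset.card_cons]
    omega
  obtain ⟨v, p1, p2, p3, y, hnd, hv, h1, h2, h3, h4⟩ := pick5 G hG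
  have hnd' := hnd
  simp only [List.nodup_cons, List.mem_cons, List.not_mem_nil, or_false, not_or,
    not_false_eq_true, List.nodup_nil, and_true] at hnd'
  obtain ⟨⟨hv1, hv2, hv3, hv4⟩, ⟨h12, h13, h14⟩, ⟨h23, h24⟩, h34⟩ := hnd'
  have hfull := adj_of_full G (v := v) (by omega)
  have leaf : ∀ p, dg G p = 1 → p ≠ v → ∀ b, G.Adj p b ↔ b = v := by
    intro p hp hpv b
    obtain ⟨a, ha⟩ := nbr_of_one G hp
    have := (ha v).1 (hfull p hpv).symm
    subst this
    exact ha b
  have l1 := leaf p1 h1 (Ne.symm hv1)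
  have l2 := leaf p2 h2 (Ne.symm hv2)
  have l3 := leaf p3 h3 (Ne.symm hv3)
  have l4 := leaf y h4 (Ne.symm hv4)
  set H : SimpleGraph {v : V // v ≠ y} := G.comap Subtype.val with hH
  have hdH : ∀ u : {v : V // v ≠ y}, dg H u + ind (u.1 = v) = dg G u.1 := by
    intro u
    have h1 := dg_comap G y u
    have h2 : G.Adj u.1 y ↔ u.1 = v := by
      rw [G.adj_comm]
      exact l4 u.1
    simp only [h2] at h1
    exact h1
  have hA3 : H.Adj ⟨v, hv4⟩ ⟨p3, h34⟩ := hfull p3 (Ne.symm hv3)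
  obtain ⟨A, hA⟩ := exists_del H hA3
  have hAG : ∀ {a b}, A.Adj a b → G.Adj a.1 b.1 := by
    intro a b h
    exact (hA.2.2 a b).2 (Or.inl h)
  have hA13 : ¬ A.Adj ⟨p1, h14⟩ ⟨p3, h34⟩ := by
    intro h
    exact hv3 ((l1 p3).1 (hAG h)).symm
  obtain ⟨B, hB⟩ := exists_add A (u := ⟨p1, h14⟩) (v := ⟨p3, h34⟩) (by simpa using h13) hA13
  have hB23 : ¬ B.Adj ⟨p2, h24⟩ ⟨p3, h34⟩ := by
    intro h
    rcases (hB.2.2 _ _).1 h with h | h | h
    · exact hv3 ((l2 p3).1 (hAG h)).symm
    · simp only [Subtype.mk.injEq] at h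
      exact h12 h.1.symm
    · simp only [Subtype.mk.injEq] at h
      exact h23 h.1
  obtain ⟨C, hC⟩ := exists_add B (u := ⟨p2, h24⟩) (v := ⟨p3, h34⟩) (by simpa using h23) hB23
  refine ⟨{v : V // v ≠ y}, inferInstance, C, ?_⟩
  have hM : (Finset.univ : Finset {v : V // v ≠ y}).val.map (fun v => dg G v.1) =
      (j + 3) ::ₘ 1 ::ₘ 1 ::ₘ 1 ::ₘ r := by
    have h1 := univ_map_ne (dg G) y
    have h2 : (Finset.univ : Finset V).val.map (dg G) =
      (j + 3) ::ₘ 1 ::ₘ 1 ::ₘ 1 ::ₘ 1 ::ₘ r := hG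
    rw [h2, h4, Multiset.cons_swap] at h1
    exact ((Multiset.cons_inj_right _).1 h1).symm
  have hval : ∀ w : {v : V // v ≠ y}, dg C w + 2 * ind (w.1 = v) =
      dg G w.1 + ind (w.1 = p1) + ind (w.1 = p2) + ind (w.1 = p3) := by
    intro w
    have a0 := hdH w
    have a1 := hA.dg w
    have a2 := hB.dg w
    have a3 := hC.dg w
    have b1 : ind (w = (⟨v, hv4⟩ : {v : V // v ≠ y})) = ind (w.1 = v) :=
      ind_congr (by simp [Subtype.ext_iff])
    have b2 : ind (w = (⟨p1, h14⟩ : {v : V // v ≠ y})) = ind (w.1 = p1) :=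
      ind_congr (by simp [Subtype.ext_iff])
    have b3 : ind (w = (⟨p2, h24⟩ : {v : V // v ≠ y})) = ind (w.1 = p2) :=
      ind_congr (by simp [Subtype.ext_iff])
    have b4 : ind (w = (⟨p3, h34⟩ : {v : V // v ≠ y})) = ind (w.1 = p3) :=
      ind_congr (by simp [Subtype.ext_iff])
    rw [b1, b4] at a1
    rw [b2, b4] at a2
    rw [b3, b4] at a3
    omega
  have hmc := map_change (dg C) (fun w : {v : V // v ≠ y} => dg G w.1)
    [⟨v, hv4⟩, ⟨p1, h14⟩, ⟨p2, h24⟩, ⟨p3, h34⟩] (by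
      simp [hv1, hv2, hv3, h12, h13, h23]) (by
      intro w hw
      simp only [List.mem_cons, List.not_mem_nil, or_false, not_or] at hw
      obtain ⟨w0, w1, w2, w3⟩ := hw
      have := hval w
      rw [ind_neg (fun h => w0 (Subtype.ext h)), ind_neg (fun h => w1 (Subtype.ext h)),
        ind_neg (fun h => w2 (Subtype.ext h)), ind_neg (fun h => w3 (Subtype.ext h))] at this
      omega)
  have ev : dg C ⟨v, hv4⟩ = j + 1 := by
    have := hval ⟨v, hv4⟩
    simp only at this
    rw [ind_pos trivial, ind_neg hv1, ind_neg hv2, ind_neg hv3, hv] at this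
    omega
  have e1 : dg C ⟨p1, h14⟩ = 2 := by
    have := hval ⟨p1, h14⟩
    simp only at this
    rw [ind_pos trivial, ind_neg (Ne.symm hv1), ind_neg h12, ind_neg h13, h1] at this
    omega
  have e2 : dg C ⟨p2, h24⟩ = 2 := by
    have := hval ⟨p2, h24⟩
    simp only at this
    rw [ind_pos trivial, ind_neg (Ne.symm hv2), ind_neg (Ne.symm h12), ind_neg h23, h2] at this
    omega
  have e3 : dg C ⟨p3, h34⟩ = 2 := by
    have b0 := hdH ⟨p3, h34⟩
    have a1 := hA.dg ⟨p3, h34⟩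
    have a2 := hB.dg ⟨p3, h34⟩
    have a3 := hC.dg ⟨p3, h34⟩
    simp only at b0
    rw [ind_neg (Ne.symm hv3), h3] at b0
    rw [ind_neg (by simpa using (Ne.symm hv3)), ind_pos rfl] at a1
    rw [ind_neg (by simpa using (Ne.symm h13)), ind_pos rfl] at a2
    rw [ind_neg (by simpa using (Ne.symm h23)), ind_pos rfl] at a3
    omega
  simp only [List.map_cons, List.map_nil, ev, e1, e2, e3, hv, h1, h2, h3] at hmc
  rw [hM] at hmc
  have hfin : ((j + 3) ::ₘ 1 ::ₘ 1 ::ₘ 1 ::ₘ r) +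
      (([j + 1, 2, 2, 2] : List ℕ) : Multiset ℕ) =
      ((j + 1) ::ₘ 2 ::ₘ 2 ::ₘ 2 ::ₘ r) +
      (([j + 3, 1, 1, 1] : List ℕ) : Multiset ℕ) := by
    simp only [← Multiset.cons_coe, Multiset.coe_nil, ← Multiset.singleton_add]
    abel
  rw [hfin] at hmc
  exact add_right_cancel hmc

end Pool.Agent.MP_7eb9fd_co
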