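import Pool.Agent.Lib.MP_7eb9fd_co.Struct

set_option autoImplicit false

namespace Pool.Agent.MP_7eb9fd_co

open Finset Classical

/-- The new partition. -/
def e0 (i p : ℕ) : Multiset ℕ :=
  (i + p + 2) ::ₘ (i + 2) ::ₘ (Multiset.replicate (i + 2) 2 + Multiset.replicate p 1)

lemma gr_e1 (i p : ℕ) : Gr ((i + p + 2) ::ₘ (i + 2) ::ₘ
    (Multiset.replicate (i + 1) 2 + Multiset.replicate p 1)) := by
  have h1 := gr_pends p _ _ (gr_book (i + 1))
  have e1 : i + 1 + 1 + p = i + p + 2 := by ring
  rw [e1] at h1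
  have e2 : (i + p + 2) ::ₘ (i + 2) ::ₘ (Multiset.replicate (i + 1) 2 + Multiset.replicate p 1) =
      (i + p + 2) ::ₘ (Multiset.replicate p 1 + (i + 1 + 1) ::ₘ Multiset.replicate (i + 1) 2) := by
    rw [Multiset.add_cons, add_comm (Multiset.replicate p 1)]
  rw [e2]
  exact h1

lemma gr_e0 (i p : ℕ) (hp : 1 ≤ p) : Gr (e0 i p) := by
  obtain ⟨q, rfl⟩ : ∃ q, p = q + 1 := ⟨p - 1, by omega⟩
  have h1 := gr_e1 i (q + 1)
  have e2 : (i + (q + 1) + 2) ::ₘ (i + 2) ::ₘ
      (Multiset.replicate (i + 1) 2 + Multiset.replicate (q + 1) 1) =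
      1 ::ₘ ((i + (q + 1) + 2) ::ₘ (i + 2) ::ₘ
      (Multiset.replicate (i + 1) 2 + Multiset.replicate q 1)) := by
    rw [Multiset.replicate_succ 1 q]
    simp only [← Multiset.singleton_add]
    abel
  rw [e2] at h1
  have h2 := gr_pend _ _ h1
  have e3 : e0 i (q + 1) = (1 + 1) ::ₘ 1 ::ₘ ((i + (q + 1) + 2) ::ₘ (i + 2) ::ₘ
      (Multiset.replicate (i + 1) 2 + Multiset.replicate q 1)) := by
    unfold e0
    rw [Multiset.replicate_succ 2 (i + 1), Multiset.replicate_succ 1 q]
    simp only [← Multiset.singleton_add]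
    abel
  rw [e3]
  exact h2

lemma e0_mem (i p : ℕ) (hp : 1 ≤ p) : e0 i p ∈ FC (4 * i + 2 * p + 8) (i + p + 4) := by
  have hpos : ∀ x ∈ e0 i p, 1 ≤ x := by
    intro x hx
    unfold e0 at hx
    simp only [Multiset.mem_cons, Multiset.mem_add] at hx
    rcases hx with rfl | rfl | h | h
    · omega
    · omega
    · rw [Multiset.eq_of_mem_replicate h]; omega
    · rw [Multiset.eq_of_mem_replicate h]
  have hc : (e0 i p).card = i + p + 4 := by
    unfold e0
    simp only [Multiset.card_cons, Multiset.card_add, Multiset.card_replicate]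
    omega
  refine mem_FC.2 ⟨hc, ?_, hpos, gr_e0 i p hp, ?_⟩
  · unfold e0
    simp only [Multiset.sum_cons, Multiset.sum_add, Multiset.sum_replicate, smul_eq_mul]
    omega
  · rintro ⟨V, _, G, hG, hcon⟩
    obtain ⟨v, hv⟩ := pick1 G (a := i + p + 2) (r := (i + 2) ::ₘ
      (Multiset.replicate (i + 2) 2 + Multiset.replicate p 1)) hG
    apply hcon
    apply conn_of_dom G v
    · rw [← card_degs G, hG, hc, hv]
    · intro u
      apply hpos
      rw [← hG]
      exact Multiset.mem_map_of_mem _ (Finset.mem_univ u)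

/-- e0 is not in the image of the injection. -/
lemma e0_not (i p : ℕ) (hi : 1 ≤ i) (hn : 4 * i + 2 * p + 8 + 7 ≤ 3 * (i + p + 1 + 4)) :
    ∀ d ∈ FC (4 * i + 2 * p + 8) (i + p + 1 + 4), Phi (i + p + 1) d ≠ e0 i p := by
  intro d hd h
  by_cases hk : i + p + 1 + 3 ∈ d
  · obtain ⟨r, rfl, hr⟩ := shape1 hn hd hk
    rw [Phi1] at h
    unfold e0 at h
    rw [show i + p + 1 + 1 = i + p + 2 by ring, Multiset.cons_inj_right] at h
    have h1 := congrArg (fun s => (Multiset.filter (fun x => 2 ≤ x) s).card) h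
    have f1 : Multiset.filter (fun x => 2 ≤ x) (Multiset.replicate (i + 2) 2) =
        Multiset.replicate (i + 2) 2 := by
      rw [Multiset.filter_eq_self]
      intro a ha
      rw [Multiset.eq_of_mem_replicate ha]
    have f2 : Multiset.filter (fun x => 2 ≤ x) (Multiset.replicate p 1) = 0 := by
      rw [Multiset.filter_eq_nil]
      intro a ha
      rw [Multiset.eq_of_mem_replicate ha]
      omega
    simp only [Multiset.filter_cons, Multiset.filter_add, f1, f2, le_refl, if_true,
      show 2 ≤ i + 2 by omega, Multiset.card_add, Multiset.card_singleton, Multiset.card_replicate,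
      Multiset.card_zero] at h1
    have h2 : i + 2 ∈ r := by
      have : i + 2 ∈ 2 ::ₘ 2 ::ₘ 2 ::ₘ r := by
        rw [h]
        exact Multiset.mem_cons_self _ _
      simp only [Multiset.mem_cons] at this
      rcases this with h | h | h | h
      · omega
      · omega
      · omega
      · exact h
    obtain ⟨V, _, G, hG⟩ := (mem_FC.1 hd).2.2.2.1
    have hcard : Fintype.card V = i + p + 1 + 4 := by
      rw [← card_degs G, (mem_FC.1 (hG ▸ hd)).1]
    obtain ⟨v, hv⟩ := pick1 G hG
    have hmem : i + 2 ∈ degs G := by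
      rw [hG]
      simp [h2]
    obtain ⟨w, -, hw⟩ := Multiset.mem_map.1 hmem
    have hwv : w ≠ v := by
      rintro rfl
      omega
    have hfull := adj_of_full G (v := v) (by omega)
    have hsub : insert w (G.neighborSet w) ⊆ ((Finset.univ.filter (fun u => 2 ≤ dg G u) : Finset V) : Set V) := by
      intro u hu
      rw [Finset.mem_coe, Finset.mem_filter]
      refine ⟨Finset.mem_univ _, ?_⟩
      rcases hu with rfl | hu
      · omega
      · have hwu : G.Adj w u := hu
        by_cases huv : u = v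
        · subst huv
          omega
        · have hvu := hfull u huv
          have hs : ({w, v} : Set V) ⊆ G.neighborSet u := by
            rintro x (rfl | hx)
            · exact hwu.symm
            · rw [Set.mem_singleton_iff] at hx
              subst hx
              exact hvu.symm
          have := Set.ncard_le_ncard hs (Set.toFinite _)
          rw [Set.ncard_pair hwv] at this
          exact this
    have h3 := Set.ncard_le_ncard hsub (Set.toFinite _)
    have hww : w ∉ G.neighborSet w := G.loopless.irrefl w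
    rw [Set.ncard_insert_of_notMem hww (Set.toFinite _), Set.ncard_coe_finset] at h3
    have h4 : (Finset.univ.filter (fun u => 2 ≤ dg G u) : Finset V).card =
        (Multiset.filter (fun x => 2 ≤ x) (degs G)).card := by
      unfold degs
      rw [Multiset.filter_map, Multiset.card_map]
      rfl
    rw [h4, hG] at h3
    simp only [Multiset.filter_cons, show 2 ≤ i + p + 1 + 3 by omega, if_true,
      show ¬ (2 ≤ 1) by omega, if_false, Multiset.card_add, Multiset.card_singleton,
      Multiset.card_zero] at h3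
    unfold dg at hw
    omega
  · obtain ⟨r, rfl⟩ := shape2 hn hd
    rw [Phi2 r hk] at h
    have h5 : e0 i p = 2 ::ₘ ((i + p + 2) ::ₘ (i + 2) ::ₘ
      (Multiset.replicate (i + 1) 2 + Multiset.replicate p 1)) := by
      unfold e0
      rw [Multiset.replicate_succ 2 (i + 1)]
      simp only [← Multiset.singleton_add]
      abel
    rw [h5, Multiset.cons_inj_right] at h
    apply (mem_FC.1 hd).2.2.2.2
    rw [h]
    exact dis_edge _ (gr_e1 i p) (by simp)

theorem strict (n j : ℕ) (hev : Even n) (hn : n + 7 ≤ 3 * j) (h2 : 2 * j ≤ n) :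
    F n j < F n (j - 1) := by
  obtain ⟨m, hm⟩ := hev
  obtain ⟨i, hi⟩ : ∃ i, m + 1 = j + i := ⟨m + 1 - j, by omega⟩
  obtain ⟨p, hp⟩ : ∃ p, j = i + p + 5 := ⟨j - i - 5, by omega⟩
  subst hp
  have hn' : n = 4 * i + 2 * p + 8 := by omega
  subst hn'
  show F (4 * i + 2 * p + 8) (i + p + 1 + 4) < F (4 * i + 2 * p + 8) (i + p + 1 + 3)
  have hle : 4 * i + 2 * p + 8 + 7 ≤ 3 * (i + p + 1 + 4) := by omega
  unfold F
  rw [← Set.InjOn.ncard_image (phi_inj _ _ hle)]
  apply Set.ncard_lt_ncard _ (fc_finite _ _)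
  rw [Set.ssubset_iff_exists]
  refine ⟨?_, e0 i p, e0_mem i p (by omega), ?_⟩
  · rintro _ ⟨d, hd, rfl⟩
    exact phi_maps _ _ hle d hd
  · rintro ⟨d, hd, h⟩
    exact e0_not i p (by omega) hle d hd h

end Pool.Agent.MP_7eb9fd_co
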