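import Pool.Agent.Lib.MP_7eb9fd_co.Main

set_option autoImplicit false

namespace Pool.Agent.MP_7eb9fd_co

open Finset Classical

variable {V : Type}

/-- Removing an isolated vertex. -/
lemma gr_zero (s : Multiset ℕ) (h : Gr (0 ::ₘ s)) : Gr s := by
  obtain ⟨V, _, G, hG⟩ := h
  obtain ⟨y, hy⟩ := pick1 G hG
  refine ⟨{v : V // v ≠ y}, inferInstance, G.comap Subtype.val, ?_⟩
  have h1 := univ_map_ne (dg G) y
  have h2 : (Finset.univ : Finset V).val.map (dg G) = 0 ::ₘ s := hG
  rw [h2, hy] at h1
  rw [(Multiset.cons_inj_right _).1 h1]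
  apply Multiset.map_congr rfl
  intro u _
  have h3 := dg_comap G y u
  have h4 : ¬ G.Adj u.1 y := by
    intro h
    have h5 : u.1 ∈ G.neighborSet y := h.symm
    have h6 : G.neighborSet y = ∅ := by
      rw [← Set.ncard_eq_zero (Set.toFinite _)]
      exact hy
    rw [h6] at h5
    exact h5
  rw [ind_neg h4] at h3
  exact h3

/-- If a partition with two parts 1 has a disconnected realization, then the rest is graphical. -/
lemma gr_of_dis (r : Multiset ℕ) (hpos : ∀ x ∈ r, 1 ≤ x) (h : Dis (1 ::ₘ 1 ::ₘ r)) : Gr r := by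
  obtain ⟨V, _, G, hG, hcon⟩ := h
  have hpos' : ∀ v, 1 ≤ dg G v := by
    intro v
    have : dg G v ∈ degs G := Multiset.mem_map_of_mem _ (Finset.mem_univ v)
    rw [hG] at this
    rcases Multiset.mem_cons.1 this with h | h
    · omega
    rcases Multiset.mem_cons.1 h with h | h
    · omega
    · exact hpos _ h
  obtain ⟨x, y, hxy, hx, hy⟩ := pick2 G hG
  obtain ⟨a, ha⟩ := nbr_of_one G hx
  obtain ⟨b, hb⟩ := nbr_of_one G hy
  have hxa : G.Adj x a := (ha a).2 rfl
  have hyb : G.Adj y b := (hb b).2 rfl
  have key : ∃ K : SimpleGraph V, ∀ w, dg K w + ind (w = x) + ind (w = y) = dg G w := by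
    by_cases hay : a = y
    · subst hay
      obtain ⟨K, hK⟩ := exists_del G hxa
      refine ⟨K, fun w => ?_⟩
      have := hK.dg w
      omega
    have hbx : b ≠ x := by
      rintro rfl
      exact hay ((ha y).1 hyb.symm).symm
    obtain ⟨A, hA⟩ := exists_del G hxa
    have hAyb : A.Adj y b := by
      rcases (hA.2.2 y b).1 hyb with h | h | h
      · exact h
      · exact absurd h.1.symm hxy
      · exact absurd h.2 hbx
    obtain ⟨B, hB⟩ := exists_del A hAyb
    have hBG : ∀ {u v}, B.Adj u v → G.Adj u v := by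
      intro u v h
      exact (hA.2.2 u v).2 (Or.inl ((hB.2.2 u v).2 (Or.inl h)))
    by_cases hab : a ≠ b ∧ ¬ G.Adj a b
    · obtain ⟨C, hC⟩ := exists_add B hab.1 (fun h => hab.2 (hBG h))
      refine ⟨C, fun w => ?_⟩
      have a1 := hA.dg w
      have a2 := hB.dg w
      have a3 := hC.dg w
      omega
    · have hrb : G.Reachable x b := by
        by_cases h1 : a = b
        · subst h1
          exact hxa.reachable
        · have h2 : G.Adj a b := by
            by_contra h3
            exact hab ⟨h1, h3⟩
          exact hxa.reachable.trans h2.reachable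
      have hc : ∃ c, ¬ G.Reachable x c := by
        by_contra hall
        push Not at hall
        apply hcon
        haveI : Nonempty V := ⟨x⟩
        exact SimpleGraph.Connected.mk (fun u v => (hall u).symm.trans (hall v))
      obtain ⟨c, hc⟩ := hc
      obtain ⟨d, hcd⟩ := exists_nbr G (hpos' c)
      have hd : ¬ G.Reachable x d := fun h => hc (h.trans hcd.symm.reachable)
      have hac : ¬ G.Adj a c := fun h => hc (hxa.reachable.trans h.reachable)
      have hbd : ¬ G.Adj b d := fun h => hd (hrb.trans h.reachable)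
      have hcx : c ≠ x := by rintro rfl; exact hc (SimpleGraph.Reachable.refl _)
      have hdx : d ≠ x := by rintro rfl; exact hd (SimpleGraph.Reachable.refl _)
      have hca : c ≠ a := by rintro rfl; exact hc hxa.reachable
      have hda : d ≠ a := by rintro rfl; exact hd hxa.reachable
      have hcb : c ≠ b := by rintro rfl; exact hc hrb
      have hdb : d ≠ b := by rintro rfl; exact hd hrb
      have hBcd : B.Adj c d := by
        have h1 : A.Adj c d := by
          rcases (hA.2.2 c d).1 hcd with h | h | h
          · exact h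
          · exact absurd h.1 hcx
          · exact absurd h.2 hdx
        rcases (hB.2.2 c d).1 h1 with h | h | h
        · exact h
        · exact absurd h.2 hdb
        · exact absurd h.1 hcb
      obtain ⟨C, hC⟩ := exists_del B hBcd
      have hCG : ∀ {u v}, C.Adj u v → G.Adj u v := fun h => hBG ((hC.2.2 _ _).2 (Or.inl h))
      obtain ⟨D, hD⟩ := exists_add C (Ne.symm hca) (fun h => hac (hCG h))
      have hDbd : ¬ D.Adj b d := by
        intro h
        rcases (hD.2.2 b d).1 h with h | h | h
        · exact hbd (hCG h)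
        · exact hcd.ne h.2.symm
        · exact hcb h.1.symm
      obtain ⟨E, hE⟩ := exists_add D (Ne.symm hdb) hDbd
      refine ⟨E, fun w => ?_⟩
      have a1 := hA.dg w
      have a2 := hB.dg w
      have a3 := hC.dg w
      have a4 := hD.dg w
      have a5 := hE.dg w
      omega
  obtain ⟨K, hK⟩ := key
  apply gr_zero
  apply gr_zero
  refine ⟨V, inferInstance, K, ?_⟩
  have hmc := map_change (dg K) (dg G) [x, y] (by simp [hxy]) (by
    intro w hw
    simp only [List.mem_cons, List.not_mem_nil, or_false, not_or] at hw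
    have := hK w
    rw [ind_neg hw.1, ind_neg hw.2] at this
    exact this)
  have e1 : dg K x = 0 := by
    have := hK x
    rw [ind_pos rfl, hx] at this
    omega
  have e2 : dg K y = 0 := by
    have := hK y
    rw [ind_pos (show y = y from rfl), hy] at this
    omega
  have hG' : (Finset.univ : Finset V).val.map (dg G) = 1 ::ₘ 1 ::ₘ r := hG
  simp only [List.map_cons, List.map_nil, e1, e2, hx, hy] at hmc
  rw [hG'] at hmc
  have hfin : (1 ::ₘ 1 ::ₘ r) + (([0, 0] : List ℕ) : Multiset ℕ) =
      (0 ::ₘ 0 ::ₘ r) + (([1, 1] : List ℕ) : Multiset ℕ) := by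
    simp only [← Multiset.cons_coe, Multiset.coe_nil, ← Multiset.singleton_add]
    abel
  rw [hfin] at hmc
  exact add_right_cancel hmc

/-- A separate edge. -/
lemma dis_edge (e : Multiset ℕ) (h : Gr e) (he : e ≠ 0) : Dis (1 ::ₘ 1 ::ₘ e) := by
  obtain ⟨V, _, G, hG⟩ := h
  have hne : Nonempty V := by
    by_contra hV
    rw [not_nonempty_iff] at hV
    apply he
    rw [← hG]
    simp [degs]
  obtain ⟨a0⟩ := hne
  refine ⟨Option (Option V), inferInstance, ext (ext G ∅) {none}, ?_, ?_⟩
  · rw [degs_ext, map_option, Set.ncard_singleton]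
    congr 1
    rw [dg_ext_none, Set.ncard_empty,
      ind_pos (show (none : Option V) ∈ ({none} : Set (Option V)) by simp)]
    congr 1
    rw [← hG]
    apply Multiset.map_congr rfl
    intro a _
    rw [dg_ext_some, ind_neg (by simp), ind_neg (by simp)]
    rfl
  · apply not_conn_of_closed _ {o : Option (Option V) | ∀ a, o ≠ some (some a)}
      (x := none) (y := some (some a0))
    · simp
    · simp
    · intro u hu v huv
      rcases v with _ | _ | v
      · simp
      · simp
      · exfalso
        rcases u with _ | _ | u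
        · simp at huv
        · simp at huv
        · exact hu u rfl

lemma gr_of_dis' {s : Multiset ℕ} (h : Dis s) : Gr s := by
  obtain ⟨V, i, G, hG, -⟩ := h
  exact ⟨V, i, G, hG⟩

/-- A new vertex joined to two vertices. -/
lemma gr_two (D E : ℕ) (r : Multiset ℕ) (h : Gr (D ::ₘ E ::ₘ r)) :
    Gr ((D + 1) ::ₘ (E + 1) ::ₘ 2 ::ₘ r) := by
  obtain ⟨V, _, G, hG⟩ := h
  obtain ⟨u, v, huv, hu, hv⟩ := pick2 G hG
  refine ⟨Option V, inferInstance, ext G {u, v}, ?_⟩
  rw [degs_ext, Set.ncard_pair huv]
  have hmc := map_change (fun a => dg G a + ind (a ∈ ({u, v} : Set V))) (dg G) [u, v]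
    (by simp [huv]) (by
      intro a ha
      simp only [List.mem_cons, List.not_mem_nil, or_false, not_or] at ha
      rw [ind_neg (by simp [ha.1, ha.2])]
      rfl)
  have h1 : dg G u + ind (u ∈ ({u, v} : Set V)) = D + 1 := by
    rw [hu, ind_pos (by simp)]
  have h1' : dg G v + ind (v ∈ ({u, v} : Set V)) = E + 1 := by
    rw [hv, ind_pos (by simp)]
  have h2 : (Finset.univ : Finset V).val.map (dg G) = D ::ₘ E ::ₘ r := hG
  simp only [List.map_cons, List.map_nil] at hmc
  rw [h1, h1', hu, hv, h2] at hmc
  have hfin : (D ::ₘ E ::ₘ r) + (([D + 1, E + 1] : List ℕ) : Multiset ℕ) =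
      ((D + 1) ::ₘ (E + 1) ::ₘ r) + (([D, E] : List ℕ) : Multiset ℕ) := by
    simp only [← Multiset.cons_coe, Multiset.coe_nil, ← Multiset.singleton_add]
    abel
  rw [hfin] at hmc
  rw [add_right_cancel hmc]
  simp only [← Multiset.singleton_add]
  abel

lemma gr_book (i : ℕ) : Gr ((i + 1) ::ₘ (i + 1) ::ₘ Multiset.replicate i 2) := by
  induction i with
  | zero =>
    have h0 : Gr (0 : Multiset ℕ) := ⟨Empty, inferInstance, ⊥, by simp [degs]⟩
    have : Gr (1 ::ₘ 1 ::ₘ (0 : Multiset ℕ)) := by
      refine ⟨Option (Option Empty), inferInstance, ext (ext ⊥ ∅) {none}, ?_⟩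
      rw [degs_ext, map_option, Set.ncard_singleton]
      congr 1
      rw [dg_ext_none, Set.ncard_empty,
        ind_pos (show (none : Option Empty) ∈ ({none} : Set (Option Empty)) by simp)]
      congr 1
    simpa using this
  | succ i ih =>
    have := gr_two _ _ _ ih
    rw [Multiset.replicate_succ]
    exact this

lemma gr_pends (p : ℕ) : ∀ (D : ℕ) (r : Multiset ℕ), Gr (D ::ₘ r) →
    Gr ((D + p) ::ₘ (Multiset.replicate p 1 + r)) := by
  induction p with
  | zero => intro D r h; simpa using h
  | succ p ih =>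
    intro D r h
    have h1 := ih _ _ (gr_pend D r h)
    have e1 : D + 1 + p = D + (p + 1) := by ring
    rw [e1] at h1
    rw [Multiset.replicate_succ]
    convert h1 using 2
    simp only [← Multiset.singleton_add]
    abel

end Pool.Agent.MP_7eb9fd_co
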